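import Mathlib

/-!
# The p-power map and dimensions
-/

namespace Pool.Agent.Helper93.WT

private lemma powBij {p : ℕ} [Fact p.Prime] {k : Type*} [Field k] [CharP k p]
    [IsAlgClosed k] (s : ℕ) : Function.Bijective (fun x : k => x ^ p ^ s) := by
  have : ExpChar k p := ExpChar.prime Fact.out
  have h := bijective_iterateFrobenius k p s
  have he : (fun x : k => x ^ p ^ s) = (iterateFrobenius k p s : k → k) := by
    funext x
    rw [iterateFrobenius_def]
  rw [he]
  exact h

private lemma powInj {p : ℕ} [Fact p.Prime] {k : Type*} [Field k] [CharP k p]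
    [IsAlgClosed k] (s : ℕ) {x y : k} (h : x ^ p ^ s = y ^ p ^ s) : x = y :=
  (powBij (p := p) (k := k) s).1 h

private noncomputable def powEquiv {p : ℕ} [Fact p.Prime] {k : Type*} [Field k] [CharP k p]
    [IsAlgClosed k] {X : Type*} (s : ℕ) (A A' : Submodule k (X → k))
    (h : ∀ f : X → k, f ∈ A ↔ (fun x => f x ^ p ^ s) ∈ A') : A ≃+ A' :=
  AddEquiv.ofBijective
    ({ toFun := fun f => ⟨fun x => f.1 x ^ p ^ s, (h f.1).1 f.2⟩
       map_zero' := by
        apply Subtype.ext
        funext x
        have hp : p ^ s ≠ 0 := pow_ne_zero _ (Fact.out : p.Prime).ne_zero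
        exact zero_pow hp
       map_add' := fun f g => by
        have : ExpChar k p := ExpChar.prime Fact.out
        apply Subtype.ext
        funext x
        simp only [Submodule.coe_add, Pi.add_apply]
        exact add_pow_expChar_pow _ _ _ _ } : A →+ A')
    (by
      constructor
      · intro f g hfg
        apply Subtype.ext
        funext x
        have h1 := congrArg (fun z : A' => z.1 x) hfg
        exact powInj (p := p) s h1
      · intro g
        choose F hF using fun x => (powBij (p := p) (k := k) s).2 (g.1 x)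
        have hF' : (fun x => F x ^ p ^ s) = g.1 := funext hF
        refine ⟨⟨F, (h F).2 ?_⟩, ?_⟩
        · rw [hF']
          exact g.2
        · apply Subtype.ext
          exact hF')

theorem finrank_eq_of_pow {p : ℕ} [Fact p.Prime] {k : Type*} [Field k] [CharP k p]
    [IsAlgClosed k] {X : Type*} (s : ℕ) (A A' : Submodule k (X → k))
    (h : ∀ f : X → k, f ∈ A ↔ (fun x => f x ^ p ^ s) ∈ A') :
    Module.finrank k A = Module.finrank k A' := by
  apply congrArg Cardinal.toNat
  refine rank_eq_of_equiv_equiv (fun x : k => x ^ p ^ s) (powEquiv (p := p) s A A' h)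
    (powBij (p := p) s) ?_
  intro r m
  apply Subtype.ext
  funext x
  change (r * m.1 x) ^ p ^ s = r ^ p ^ s * (m.1 x) ^ p ^ s
  exact mul_pow _ _ _

/-- The preimage of a subspace under the p-power map. -/
theorem exists_preimage_pow {p : ℕ} [Fact p.Prime] {k : Type*} [Field k] [CharP k p]
    {X : Type*} (s : ℕ) (A' : Submodule k (X → k)) :
    ∃ A : Submodule k (X → k), ∀ f : X → k, f ∈ A ↔ (fun x => f x ^ p ^ s) ∈ A' := by
  have : ExpChar k p := ExpChar.prime Fact.out
  refine ⟨{ carrier := {f | (fun x => f x ^ p ^ s) ∈ A'}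
            add_mem' := ?_
            zero_mem' := ?_
            smul_mem' := ?_ }, fun f => Iff.rfl⟩
  · intro f g hf hg
    have he : (fun x => (f + g) x ^ p ^ s) = (fun x => f x ^ p ^ s) + (fun x => g x ^ p ^ s) := by
      funext x
      simp only [Pi.add_apply]
      exact add_pow_expChar_pow _ _ _ _
    change (fun x => (f + g) x ^ p ^ s) ∈ A'
    rw [he]
    exact A'.add_mem hf hg
  · have he : (fun x : X => (0 : X → k) x ^ p ^ s) = 0 := by
      funext x
      have hp : p ^ s ≠ 0 := pow_ne_zero _ (Fact.out : p.Prime).ne_zero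
      exact zero_pow hp
    change (fun x => (0 : X → k) x ^ p ^ s) ∈ A'
    rw [he]
    exact A'.zero_mem
  · intro c f hf
    have he : (fun x => (c • f) x ^ p ^ s) = (c ^ p ^ s) • (fun x => f x ^ p ^ s) := by
      funext x
      simp only [Pi.smul_apply, smul_eq_mul]
      exact mul_pow _ _ _
    change (fun x => (c • f) x ^ p ^ s) ∈ A'
    rw [he]
    exact A'.smul_mem _ hf

end Pool.Agent.Helper93.WT
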