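import Pool.Agent.Helper93.WT.Defs2
import Pool.Agent.Helper93.WS.FrobC

/-!
# The systems of eigenvalues attached to `ρ`
-/

open scoped Pointwise NumberField

namespace Pool.Agent.Helper93.WT

open Pool.Agent.Helper93.WS

universe u

theorem exists_theta_data {p : ℕ} [Fact p.Prime] {k : Type*} [Field k] [CharP k p]
    {F F' L : Type u} [Field F] [NumberField F] [Field F'] [NumberField F']
    [Field L] [NumberField L] [Algebra F F'] [Algebra F L] [Algebra F' L] [IsScalarTower F F' L]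
    [IsGalois F F'] [IsGalois F L] (hP : IsPGroup p (F' ≃ₐ[F] F'))
    (ρ : (L ≃ₐ[F] L) →* Matrix.GeneralLinearGroup (Fin 2) k)
    {r : ℕ} {e e' : Fin r → 𝓞 F'} {m : ℕ} (cas1 : ∑ i, e i * e' i = (m : 𝓞 F'))
    (cas : ∀ σ : F' ≃ₐ[F] F', σ ≠ 1 → ∑ i, e i * σ • e' i = 0) {N : ℕ} (hmN : m ∣ N)
    (hram : ∀ Q : Ideal (𝓞 L), Q.IsMaximal → (N : 𝓞 L) ∉ Q → ∀ τ : L ≃ₐ[F] L,
        (∀ x : 𝓞 L, τ • x - x ∈ Q) → ρ τ = 1) :
    ∃ (Θ : Ideal (𝓞 F') → k) (c : Ideal (𝓞 F) → k),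
      (∀ (v : Ideal (𝓞 F)), (N : 𝓞 F) ∉ v → ∀ (φ : L ≃ₐ[F] L) (Q : Ideal (𝓞 L)),
        IsFrob F φ Q v → c v = Matrix.trace (ρ φ : Matrix (Fin 2) (Fin 2) k)) ∧
      (∀ v : Ideal (𝓞 F), v.IsMaximal → (N : 𝓞 F) ∉ v → ∃ f₀ : ℕ,
        f₀ * (overSet F' v).ncard = Nat.card (F' ≃ₐ[F] F') ∧
          ∀ w ∈ overSet F' v, Θ w = c v ^ f₀) ∧
      (∀ (D : Type u) [DivisionRing D] [Algebra F' D] (O : Subring D) (n : ℕ) (H : Set D),
        eigenSet F F' ρ O n H N = thetaSet F' O n H N Θ) ∧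
      (∀ (B : Type u) [DivisionRing B] [Algebra F B] (O₁ : Subring B) (n : ℕ) (H₁ : Set B),
        eigenSet F F ρ O₁ n H₁ N = thetaSet F O₁ n H₁ N c) := by
  classical
  let Θ : Ideal (𝓞 F') → k := fun w =>
    if h : ∃ (φ : L ≃ₐ[F'] L) (Q : Ideal (𝓞 L)), IsFrob F' φ Q w then
      Matrix.trace (ρ (h.choose.restrictScalars F) : Matrix (Fin 2) (Fin 2) k) else 0
  let c : Ideal (𝓞 F) → k := fun v =>
    if h : ∃ (φ : L ≃ₐ[F] L) (Q : Ideal (𝓞 L)), IsFrob F φ Q v then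
      Matrix.trace (ρ h.choose : Matrix (Fin 2) (Fin 2) k) else 0
  have hΘeq : ∀ (w : Ideal (𝓞 F')), (N : 𝓞 F') ∉ w → ∀ (φ : L ≃ₐ[F'] L) (Q : Ideal (𝓞 L)),
      IsFrob F' φ Q w →
      Θ w = Matrix.trace (ρ (φ.restrictScalars F) : Matrix (Fin 2) (Fin 2) k) := by
    intro w hw φ Q hφ
    have h : ∃ (φ : L ≃ₐ[F'] L) (Q : Ideal (𝓞 L)), IsFrob F' φ Q w := ⟨φ, Q, hφ⟩
    have h1 : Θ w = Matrix.trace (ρ (h.choose.restrictScalars F) : Matrix (Fin 2) (Fin 2) k) :=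
      dif_pos h
    rw [h1]
    exact frob_trace_unique' ρ hram hw h.choose_spec.choose_spec hφ
  have hceq : ∀ (v : Ideal (𝓞 F)), (N : 𝓞 F) ∉ v → ∀ (φ : L ≃ₐ[F] L) (Q : Ideal (𝓞 L)),
      IsFrob F φ Q v → c v = Matrix.trace (ρ φ : Matrix (Fin 2) (Fin 2) k) := by
    intro v hv φ Q hφ
    have h : ∃ (φ : L ≃ₐ[F] L) (Q : Ideal (𝓞 L)), IsFrob F φ Q v := ⟨φ, Q, hφ⟩
    have h1 : c v = Matrix.trace (ρ h.choose : Matrix (Fin 2) (Fin 2) k) := dif_pos h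
    rw [h1]
    exact frob_trace_unique ρ hram hv h.choose_spec.choose_spec hφ
  refine ⟨Θ, c, hceq, ?_, ?_, ?_⟩
  · intro v hv hNv
    obtain ⟨φ, Q, hφ⟩ := exists_frob (F := F) (L := L) hv
    obtain ⟨f₀, hf₀, h⟩ := frob_power hP ρ (⟨hv, cas1, cas, notMem_of_dvd hmN hNv⟩ :
      Good e e' m v) hφ
    refine ⟨f₀, hf₀, fun w hw => ?_⟩
    obtain ⟨φ', Q', h1, h2⟩ := h w hw
    rw [hΘeq w (over_notMem hNv hw) φ' Q' h1, h2, hceq v hNv φ Q hφ]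
  · intro D _ _ O n H
    ext f
    constructor
    · rintro ⟨h1, h2⟩
      refine ⟨h1, fun w hw hNw => ?_⟩
      obtain ⟨φ, Q, hφ⟩ := exists_frob' F (L := L) hw
      rw [hΘeq w hNw φ Q hφ]
      exact h2 w hw hNw φ Q hφ
    · rintro ⟨h1, h2⟩
      refine ⟨h1, fun w hw hNw φ Q hφ => ?_⟩
      have h3 := h2 w hw hNw
      rw [hΘeq w hNw φ Q hφ] at h3
      exact h3
  · intro B _ _ O₁ n H₁
    have hres : ∀ φ : L ≃ₐ[F] L, φ.restrictScalars F = φ := fun φ => by ext; rfl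
    ext f
    constructor
    · rintro ⟨h1, h2⟩
      refine ⟨h1, fun v hv hNv => ?_⟩
      obtain ⟨φ, Q, hφ⟩ := exists_frob (F := F) (L := L) hv
      rw [hceq v hNv φ Q hφ]
      have h3 := h2 v hv hNv φ Q hφ
      rw [hres] at h3
      exact h3
    · rintro ⟨h1, h2⟩
      refine ⟨h1, fun v hv hNv φ Q hφ => ?_⟩
      have h3 := h2 v hv hNv
      rw [hceq v hNv φ Q hφ] at h3
      rw [hres]
      exact h3

end Pool.Agent.Helper93.WT
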