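import Pool.Agent.Helper93.WT.Defs2

/-!
# Hecke operators and the p-power map
-/

open scoped Pointwise NumberField

namespace Pool.Agent.Helper93.WT

open Pool.Agent.Helper93.WS

variable {k : Type*} [Field k] {K : Type*} [Field K] [NumberField K] {B : Type*}
  [DivisionRing B] [Algebra K B]

private theorem hecke_pow {p : ℕ} [Fact p.Prime] [CharP k p] {O₁ : Subring B}
    (hO : IsOrder K O₁) {n : ℕ} {H₁ : Set B} {v : Ideal (𝓞 K)} (hv : v.IsMaximal) (s : ℕ)
    (g : AddSubgroup B × Set B → k) :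
    hecke K O₁ n H₁ v (fun x => g x ^ p ^ s) = fun x => hecke K O₁ n H₁ v g x ^ p ^ s := by
  haveI : ExpChar k p := ExpChar.prime Fact.out
  funext b
  have h := (iterateFrobenius k p s).toAddMonoidHom.map_finsum_mem
    (s := {b₁ | Nb K O₁ n H₁ v b b₁}) g (nb_finite hO hv b)
  exact h.symm

theorem hecke_iterate_pow {p : ℕ} [Fact p.Prime] [CharP k p] {O₁ : Subring B}
    (hO : IsOrder K O₁) {n : ℕ} {H₁ : Set B} {v : Ideal (𝓞 K)} (hv : v.IsMaximal) (s : ℕ)
    (g : AddSubgroup B × Set B → k) (a : k) (j : ℕ) :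
    (fun g => hecke K O₁ n H₁ v g - (a ^ p ^ s) • g)^[j] (fun x => g x ^ p ^ s) =
      fun x => ((fun g => hecke K O₁ n H₁ v g - a • g)^[j] g) x ^ p ^ s := by
  haveI : ExpChar k p := ExpChar.prime Fact.out
  induction j with
  | zero => rfl
  | succ j ih =>
    rw [Function.iterate_succ_apply', ih, Function.iterate_succ_apply']
    rw [hecke_pow hO hv]
    funext x
    simp only [Pi.sub_apply, Pi.smul_apply, smul_eq_mul]
    rw [sub_pow_expChar_pow, mul_pow]

end Pool.Agent.Helper93.WT
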