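import Pool.Agent.Helper93.WT.Rep
import Pool.Agent.Helper93.WT.Twist
import Pool.Agent.Helper93.WT.Rank
import Pool.Agent.Helper93.WT.Theta

/-!
# The multiplicity over the base field is the dimension of the Brauer quotient
-/

open scoped Pointwise NumberField

namespace Pool.Agent.Helper93.WT

open Pool.Agent.Helper93.WS

universe u

theorem fixForm_pow {p : ℕ} [Fact p.Prime] {k : Type*} [Field k] [CharP k p] {X G P : Type*}
    [Group G] [Group P] [MulAction G X] [MulAction P X] (Y : Set X) (Q : Set P) (s : ℕ)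
    (f : X → k) : FixForm k G Y Q (fun x => f x ^ p ^ s) ↔ FixForm k G Y Q f := by
  have hp : p ^ s ≠ 0 := pow_ne_zero s (Fact.out : p.Prime).ne_zero
  constructor
  · rintro ⟨h1, h2⟩
    refine ⟨fun y hy => h1 y (pow_ne_zero _ hy), fun g y => ?_⟩
    have h3 : f (g • y) ^ p ^ s = f y ^ p ^ s := h2 g y
    exact iterateFrobenius_inj k p s (by
      rw [iterateFrobenius_def, iterateFrobenius_def]
      exact h3)
  · rintro ⟨h1, h2⟩
    refine ⟨fun y hy => h1 y fun h0 => hy ?_, fun g y => ?_⟩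
    · show f y ^ p ^ s = 0
      rw [h0, zero_pow hp]
    · show f (g • y) ^ p ^ s = f y ^ p ^ s
      rw [h2]

theorem fixRes_pos {k : Type*} [Field k] {X G P : Type*}
    [Group G] [Group P] [MulAction G X] [MulAction P X] {Y : Set X} {Q : Set P} {x : X}
    (h : x ∈ Y ∧ ∀ σ ∈ Q, ∃ g : G, σ • x = g • x) (f : X → k) : fixRes k G Y Q f x = f x := by
  classical
  exact if_pos h

theorem fixRes_neg {k : Type*} [Field k] {X G P : Type*}
    [Group G] [Group P] [MulAction G X] [MulAction P X] {Y : Set X} {Q : Set P} {x : X}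
    (h : ¬ (x ∈ Y ∧ ∀ σ ∈ Q, ∃ g : G, σ • x = g • x)) (f : X → k) :
    fixRes k G Y Q f x = 0 := by
  classical
  exact if_neg h

theorem pullB_pow {p : ℕ} [Fact p.Prime] {k : Type*} [Field k] {K : Type*} [Field K]
    [NumberField K] {B D : Type*} [Ring B] [Ring D] [Algebra K B] (O₁ : Subring B) (n : ℕ)
    (H₁ : Set B) (ι : B →+* D) (y : AddSubgroup D × Set D) (s : ℕ)
    (f : AddSubgroup D × Set D → k) :
    pullB K O₁ n H₁ ι y (fun x => f x ^ p ^ s) = fun b => pullB K O₁ n H₁ ι y f b ^ p ^ s := by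
  have hp : p ^ s ≠ 0 := pow_ne_zero s (Fact.out : p.Prime).ne_zero
  funext b
  unfold pullB
  by_cases hb : IsPair K O₁ n H₁ b
  · simp only [if_pos hb]
  · simp only [if_neg hb, zero_pow hp]

variable {k : Type*} [Field k]
  {F F' L D : Type u} [Field F] [NumberField F] [Field F'] [NumberField F']
  [Field L] [NumberField L] [Algebra F F'] [Algebra F L] [Algebra F' L] [IsScalarTower F F' L]
  [IsGalois F F'] [IsGalois F L]
  [DivisionRing D] [Algebra F' D] [FiniteDimensional F' D]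
  [MulSemiringAction (F' ≃ₐ[F] F') D] {O : Subring D} {n : ℕ} {H : Set D} {N : ℕ}

theorem theta_inv {Θ : Ideal (𝓞 F') → k} {c : Ideal (𝓞 F) → k}
    (hΘc : ∀ v : Ideal (𝓞 F), v.IsMaximal → (N : 𝓞 F) ∉ v → ∃ f₀ : ℕ,
      f₀ * (overSet F' v).ncard = Nat.card (F' ≃ₐ[F] F') ∧ ∀ w ∈ overSet F' v, Θ w = c v ^ f₀)
    (σ : F' ≃ₐ[F] F') {w : Ideal (𝓞 F')} (hw : w.IsMaximal) (hNw : (N : 𝓞 F') ∉ w) :
    Θ (σ⁻¹ • w) = Θ w := by
  have h0 : w ∈ overSet F' (w.comap (algebraMap (𝓞 F) (𝓞 F'))) := ⟨hw, rfl⟩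
  have h0' := (overSet_smul σ⁻¹).2 h0
  have hv : (w.comap (algebraMap (𝓞 F) (𝓞 F'))).IsMaximal :=
    Ideal.isMaximal_comap_of_isIntegral_of_isMaximal w
  have hNv : (N : 𝓞 F) ∉ w.comap (algebraMap (𝓞 F) (𝓞 F')) := by
    intro h
    rw [Ideal.mem_comap, map_natCast] at h
    exact hNw h
  obtain ⟨f₀, _, h⟩ := hΘc _ hv hNv
  rw [h _ h0, h _ h0']

theorem heckeFam_gal (hact : ∀ (σ : F' ≃ₐ[F] F') (a : F'), σ • algebraMap F' D a =
      algebraMap F' D (σ a))
    (hO : IsOrder F' O) (hOP : ∀ (σ : F' ≃ₐ[F] F'), ∀ a ∈ O, σ • a ∈ O)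
    (hHP : ∀ (σ : F' ≃ₐ[F] F'), ∀ h ∈ H, σ • h ∈ H) (σ : F' ≃ₐ[F] F') (i : IdxN F' N)
    {Θ : Ideal (𝓞 F') → k} (hΘ : Θ (σ⁻¹ • i.1) = Θ i.1) :
    ∃ i' : IdxN F' N, (fun i : IdxN F' N => Θ i.1) i' = (fun i : IdxN F' N => Θ i.1) i ∧
      ∀ f : AddSubgroup D × Set D → k,
      heckeFam k hO n H N i' (fun x => f (σ • x)) =
        fun x => heckeFam k hO n H N i f (σ • x) := by
  refine ⟨⟨σ⁻¹ • i.1, idx_smul σ⁻¹ i.2⟩, hΘ, ?_⟩
  intro f
  funext y
  show hecke F' O n H (σ⁻¹ • i.1) (fun x => f (σ • x)) y = hecke F' O n H i.1 f (σ • y)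
  rw [← hecke_gal_smul (hact_smul hact) hOP hHP σ (σ⁻¹ • i.1) f y, smul_inv_smul]

theorem base_main {p : ℕ} [Fact p.Prime] [CharP k p] [IsAlgClosed k]
    (hP : IsPGroup p (F' ≃ₐ[F] F'))
    (ρ : (L ≃ₐ[F] L) →* Matrix.GeneralLinearGroup (Fin 2) k)
    (hact : ∀ (σ : F' ≃ₐ[F] F') (a : F'), σ • algebraMap F' D a = algebraMap F' D (σ a))
    (hO : IsOrder F' O) (hOP : ∀ (σ : F' ≃ₐ[F] F'), ∀ a ∈ O, σ • a ∈ O)
    (hn : n ≠ 0) (hH : IsLevel O n H) (hHP : ∀ (σ : F' ≃ₐ[F] F'), ∀ h ∈ H, σ • h ∈ H)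
    (hsmall : ∀ y, IsPair F' O n H y → ∀ d : Dˣ, d • y = y → ∃ a : F', (d : D) = algebraMap F' D a)
    {r : ℕ} {e e' : Fin r → 𝓞 F'} {m : ℕ} (cas1 : ∑ i, e i * e' i = (m : 𝓞 F'))
    (cas : ∀ σ : F' ≃ₐ[F] F', σ ≠ 1 → ∑ i, e i * σ • e' i = 0)
    (hmN : m ∣ N) (hnN : n ∣ N)
    (hsplit : ∀ w : Ideal (𝓞 F'), w.IsMaximal → (N : 𝓞 F') ∉ w → Split F' O w)
    (hram : ∀ Q : Ideal (𝓞 L), Q.IsMaximal → (N : 𝓞 L) ∉ Q → ∀ τ : L ≃ₐ[F] L,
        (∀ x : 𝓞 L, τ • x - x ∈ Q) → ρ τ = 1) :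
    Module.finrank k (Submodule.span k (multBase (F' := F') ρ O n H N)) =
      Module.finrank k (fixPart k Dˣ {y | IsPair F' O n H y} (Set.univ : Set (F' ≃ₐ[F] F'))
        (eigenSpace F F' ρ O n H N)) ∧
    ((∃ f ∈ fixPart k Dˣ {y | IsPair F' O n H y} (Set.univ : Set (F' ≃ₐ[F] F'))
        (eigenSpace F F' ρ O n H N), f ≠ 0) ↔ OccursBase (F' := F') ρ O n H N) := by
  classical
  obtain ⟨Θ, c, hceq, hΘc, hD, hB⟩ := exists_theta_data hP ρ cas1 cas hmN hram
  obtain ⟨s, hs⟩ := hP.exists_card_eq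
  have hspan : eigenSpace F F' ρ O n H N = Submodule.span k (thetaSet F' O n H N Θ) := by
    unfold eigenSpace
    rw [hD]
  rw [hspan]
  refine ⟨?_, ?_⟩
  · set A' : Submodule k (AddSubgroup D × Set D → k) :=
      fixPart k Dˣ {y | IsPair F' O n H y} (Set.univ : Set (F' ≃ₐ[F] F'))
        (Submodule.span k (thetaSet F' O n H N Θ)) with hA'
    obtain ⟨A, hA⟩ := exists_preimage_pow (p := p) s A'
    have hBmem : ∀ (B : Type u) [DivisionRing B] [Algebra F B] (y : AddSubgroup D × Set D)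
        (γ : (F' ≃ₐ[F] F') → Dˣ) (ι : B →+* D), IsTwistedForm O n H y γ ι →
        ∀ g, g ∈ eigenSpace F F ρ (OB ι y.1) n (HB ι y) N ↔
          g ∈ thetaSet F (OB ι y.1) n (HB ι y) N c := by
      intro B _ _ y γ ι htw g
      have hdat := htw.datum hact hO hOP hn hH hHP hsmall
      have hfd : FiniteDimensional F B := hdat.finiteDimensional
      unfold eigenSpace
      rw [hB, thetaSet_eq k hdat.isOrder]
      exact ⟨(absEigen_submodule (G := Bˣ) {b | IsPair F (OB ι y.1) n (HB ι y) b}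
        (finite_classes hdat.isOrder hn hdat.subLevel_HB.lev) (heckeFam k hdat.isOrder n _ N)
        (fun i => c i.1)).1 g, fun h => Submodule.subset_span h⟩
    have key : multBase (F' := F') ρ O n H N = (A : Set (AddSubgroup D × Set D → k)) := by
      ext f
      rw [SetLike.mem_coe, hA]
      constructor
      · rintro ⟨h1, h2, h3⟩
        refine mem_of_pull hP hact hO hOP hn hH hHP hsmall cas1 cas hmN hnN hsplit hΘc
          ((fixForm_pow _ _ s f).2 ⟨fun y hy => ⟨(h1 y hy).1, fun σ _ => (h1 y hy).2 σ⟩, h2⟩) ?_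
        intro B _ _ y γ ι htw v hv hNv
        have hdat := htw.datum hact hO hOP hn hH hHP hsmall
        obtain ⟨j, hj⟩ := ((hBmem B y γ ι htw _).1 (h3 B y γ ι htw)).2 v hv hNv
        refine ⟨j, ?_⟩
        rw [hs, pullB_pow, hecke_iterate_pow hdat.isOrder hv, hj]
        funext x
        exact zero_pow (pow_ne_zero s (Fact.out : p.Prime).ne_zero)
      · intro hf
        have h1 : FixForm k Dˣ {y | IsPair F' O n H y} (Set.univ : Set (F' ≃ₐ[F] F')) f :=
          (fixForm_pow _ _ s f).1 (fixForm_of_mem hO hn hH hf)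
        refine ⟨fun y hy => ⟨(h1.1 y hy).1, fun σ => (h1.1 y hy).2 σ (Set.mem_univ σ)⟩, h1.2, ?_⟩
        intro B _ _ y γ ι htw
        have hdat := htw.datum hact hO hOP hn hH hHP hsmall
        refine (hBmem B y γ ι htw _).2 ⟨?_, fun v hv hNv => ?_⟩
        · have hform : IsForm F' O n H f := by
            refine ⟨fun z hz => ?_, h1.2⟩
            by_contra h0
            exact hz (h1.1 z h0).1
          exact isForm_pull hdat hform
        · obtain ⟨j, hj⟩ := pull_of_mem hP hact hO hOP hn hH hHP hsmall cas1 cas hmN hnN hsplit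
            hΘc hf htw hv hNv
          refine ⟨j, ?_⟩
          rw [hs, pullB_pow, hecke_iterate_pow hdat.isOrder hv] at hj
          funext x
          have h2 := congrFun hj x
          exact eq_zero_of_pow_eq_zero h2
    rw [key, Submodule.span_eq]
    exact finrank_eq_of_pow (p := p) s A A' hA
  · have hspan2 : Submodule.span k (thetaSet F' O n H N Θ) = Submodule.span k
        (absEigen Dˣ {y | IsPair F' O n H y} (heckeFam k hO n H N) (fun i => Θ i.1)) := by
      rw [thetaSet_eq k hO]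
    have hsub := absEigen_submodule (G := Dˣ) {y | IsPair F' O n H y}
      (finite_classes hO hn hH) (heckeFam k hO n H N) (fun i => Θ i.1)
    constructor
    · rintro ⟨f, ⟨h, ⟨hh, hhP⟩, rfl⟩, hf0⟩
      have hh' : h ∈ thetaSet F' O n H N Θ := by
        rw [thetaSet_eq k hO]
        rw [SetLike.mem_coe, hspan2] at hh
        exact hsub.1 h hh
      have hhP' : ∀ (σ : F' ≃ₐ[F] F') x, h (σ • x) = h x := fun σ x => hhP σ (Set.mem_univ σ) x
      obtain ⟨y, hy⟩ : ∃ y, fixRes k Dˣ {y | IsPair F' O n H y}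
          (Set.univ : Set (F' ≃ₐ[F] F')) h y ≠ 0 := by
        by_contra hcon
        push Not at hcon
        exact hf0 (funext hcon)
      have hy2 : (y ∈ {y | IsPair F' O n H y} ∧ ∀ σ ∈ (Set.univ : Set (F' ≃ₐ[F] F')),
          ∃ g : Dˣ, σ • y = g • y) := by
        by_contra hcon
        exact hy (fixRes_neg hcon h)
      have hy3 : h y ≠ 0 := by
        rw [fixRes_pos hy2] at hy
        exact hy
      obtain ⟨γ, hdat⟩ := exists_datum hact hO hOP hn hH hHP hsmall hy2.1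
        (fun σ => hy2.2 σ (Set.mem_univ σ))
      letI : Algebra F (twFix γ) := algFix hact γ
      obtain ⟨g, hg, hg0, hgeig⟩ := exists_eigenform hP hdat hdat.subLevel_HB cas1 cas hmN hnN
        hsplit hΘc hh' hhP' hy3
      refine ⟨twFix γ, inferInstance, inferInstance, y, γ, (twFix γ).subtype, g,
        ⟨hy2.1, hdat.hγ, hdat.hι, hdat.hB⟩, hg, hg0, ?_⟩
      intro v hv hNv φ Q hφ
      rw [hgeig v hv hNv, hceq v hNv φ Q hφ]
    · rintro ⟨B, _, _, y, γ, ι, g, htw, hg, hg0, hgeig⟩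
      have hdat := htw.datum hact hO hOP hn hH hHP hsmall
      obtain ⟨f, hf, hfP, hfT⟩ := exists_theta_of_eigenform hP hdat hsmall cas1 cas hmN hnN
        hsplit hΘc hg hg0 (by
          intro v hv hNv
          obtain ⟨φ, Q, hφ⟩ := exists_frob (F := F) (L := L) hv
          rw [hceq v hNv φ Q hφ]
          exact hgeig v hv hNv φ Q hφ)
      -- an invariant element which does not vanish on the fixed classes
      rw [hspan2] at hfT
      obtain ⟨f', hf', hf'P, y', hy', hf'y, hfix'⟩ := abs_main (G := Dˣ) hP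
        {y | IsPair F' O n H y} (fun g x => isPair_units_smul g)
        (fun σ x => isPair_gal_smul (hact_smul hact) hOP hHP σ)
        (fun σ g => ⟨_, fun x => gal_units_smul_pair σ g x⟩) (finite_classes hO hn hH)
        (heckeFam k hO n H N) (fun i => Θ i.1)
        (fun i f hf => IsForm.hecke i.1 hf)
        (fun i j f => hecke_comm hO hH i.2.1 j.2.1 (notMem_of_dvd hnN i.2.2)
          (notMem_of_dvd hnN j.2.2) f)
        (fun σ i => heckeFam_gal hact hO hOP hHP σ i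
          (theta_inv hΘc σ i.2.1 i.2.2))
        (Or.inr ⟨f, by rw [← hspan2]; exact Submodule.subset_span hf, hfP, hfT⟩)
      refine ⟨fixRes k Dˣ {y | IsPair F' O n H y} (Set.univ : Set (F' ≃ₐ[F] F')) f', ?_, ?_⟩
      · refine ⟨f', ⟨?_, fun σ _ x => hf'P σ x⟩, rfl⟩
        rw [SetLike.mem_coe, hspan2]
        exact Submodule.subset_span hf'
      · intro h0
        have h1 := congrFun h0 y'
        rw [fixRes_pos ⟨hy', fun σ _ => hfix' σ⟩] at h1
        exact hf'y h1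

end Pool.Agent.Helper93.WT
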