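import Mathlib

/-!
# Intermediate fields of small p-part of the degree
-/

namespace Pool.Agent.Helper93.WT

/-- an orbit whose size is not divisible by `m` -/
private theorem exists_orbit {P Y : Type*} [Group P] [MulAction P Y] [Finite Y] (m : ℕ)
    (hm : ¬ m ∣ Nat.card Y) : ∃ y : Y, ¬ m ∣ (MulAction.orbit P y).ncard := by
  by_contra hcon
  push Not at hcon
  apply hm
  classical
  have : Finite (MulAction.orbitRel.Quotient P Y) := Quotient.finite _
  have : Fintype (MulAction.orbitRel.Quotient P Y) := Fintype.ofFinite _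
  rw [Nat.card_congr (MulAction.selfEquivSigmaOrbits P Y), Nat.card_sigma]
  refine Finset.dvd_sum fun ω _ => ?_
  exact hcon _

theorem exists_field_of_not_dvd {F F' : Type*} [Field F] [Field F'] [Algebra F F']
    [FiniteDimensional F F'] [IsGalois F F'] {p : ℕ} [Fact p.Prime]
    (occ : IntermediateField F F' → Prop) (mult : IntermediateField F F' → ℕ) (d : ℕ)
    (h1 : ∀ K : IntermediateField F F', IsPGroup p K.fixingSubgroup → mult K ≠ 0 → occ K)
    (h2 : ∀ P : Subgroup (F' ≃ₐ[F] F'), IsPGroup p P →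
      ∃ (Y : Type) (_ : Finite Y) (_ : MulAction P Y), Nat.card Y = d ∧
        ∀ K : IntermediateField F F', K.fixingSubgroup ≤ P →
          Nat.card {y : Y // ∀ σ : P, (σ : F' ≃ₐ[F] F') ∈ K.fixingSubgroup → σ • y = y} =
            mult K)
    (b : ℕ) (hb : ¬ p ^ (b + 1) ∣ d) :
    ∃ K : IntermediateField F F', IsPGroup p K.fixingSubgroup ∧
      ¬ p ^ (b + 1) ∣ Module.finrank F K ∧ occ K := by
  classical
  obtain ⟨P⟩ : Nonempty (Sylow p (F' ≃ₐ[F] F')) := inferInstance
  obtain ⟨Y, hY, hA, hcard, hfix⟩ := h2 P.1 P.2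
  obtain ⟨y, hy⟩ := exists_orbit (P := (P : Subgroup (F' ≃ₐ[F] F'))) (Y := Y) (p ^ (b + 1))
    (by rw [hcard]; exact hb)
  set Q0 : Subgroup (P : Subgroup (F' ≃ₐ[F] F')) :=
    MulAction.stabilizer (P : Subgroup (F' ≃ₐ[F] F')) y with hQ0
  set Q : Subgroup (F' ≃ₐ[F] F') := Q0.map (P : Subgroup (F' ≃ₐ[F] F')).subtype with hQ
  have hQP : Q ≤ (P : Subgroup (F' ≃ₐ[F] F')) := Subgroup.map_subtype_le Q0
  have hK : (IntermediateField.fixedField Q).fixingSubgroup = Q :=
    IntermediateField.fixingSubgroup_fixedField Q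
  have hfr : Module.finrank F (IntermediateField.fixedField Q) = Q0.index * P.1.index := by
    rw [IntermediateField.finrank_eq_fixingSubgroup_index, hK, hQ, Subgroup.index_map_subtype]
  have hidx : ¬ p ^ (b + 1) ∣ Q0.index := by
    rw [hQ0, MulAction.index_stabilizer]
    exact hy
  obtain ⟨n, hn⟩ := P.2.index Q0
  have hnb : n < b + 1 := by
    by_contra h
    apply hidx
    rw [hn]
    exact pow_dvd_pow p (not_lt.mp h)
  refine ⟨IntermediateField.fixedField Q, ?_, ?_, ?_⟩
  · rw [hK]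
    exact P.2.to_le hQP
  · intro hdvd
    rw [hfr, hn] at hdvd
    have h3 : p ^ (n + 1) ∣ p ^ n * P.1.index := (pow_dvd_pow p hnb).trans hdvd
    rw [pow_succ] at h3
    exact P.not_dvd_index
      (Nat.dvd_of_mul_dvd_mul_left (pow_pos (Fact.out : p.Prime).pos n) h3)
  · refine h1 _ ?_ ?_
    · rw [hK]
      exact P.2.to_le hQP
    · rw [← hfix _ (by rw [hK]; exact hQP)]
      have hne : Nonempty {y : Y // ∀ σ : P.1, (σ : F' ≃ₐ[F] F') ∈
          (IntermediateField.fixedField Q).fixingSubgroup → σ • y = y} := by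
        refine ⟨⟨y, fun σ hσ => ?_⟩⟩
        rw [hK, hQ] at hσ
        obtain ⟨τ, hτ, hτσ⟩ := hσ
        have : τ = σ := Subtype.ext hτσ
        subst this
        exact hτ
      exact Nat.card_ne_zero.mpr ⟨hne, inferInstance⟩

end Pool.Agent.Helper93.WT
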