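import Pool.Agent.Helper93.WS.Defs3

/-!
# Multiplicities of a Galois representation over the intermediate fields

Twisted forms over an intermediate field `K` of `F' / F` of a quaternion algebra `D` over `F'`
with a semilinear action of `Gal(F'/F)`, and the multiplicity of `ρ` over `K`.
-/

open scoped Pointwise NumberField

namespace Pool.Agent.Helper93.WT

open Pool.Agent.Helper93.WS

universe u

/-- `y` is a pair of `D` with `σ y = γ_σ y` for all `σ` in `Gal(F'/K)`, and `ι` identifies the
`K`-algebra `B` with the ring of all `d` in `D` with `σ(d) γ_σ = γ_σ d` for all `σ` in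
`Gal(F'/K)`. -/
structure IsTwistedFormOver {F F' : Type*} [Field F] [NumberField F] [Field F'] [NumberField F']
    [Algebra F F'] {B D : Type*} [DivisionRing B] [DivisionRing D] [Algebra F' D]
    [MulSemiringAction (F' ≃ₐ[F] F') D] (K : IntermediateField F F') [Algebra K B]
    (O : Subring D) (n : ℕ) (H : Set D) (y : AddSubgroup D × Set D)
    (γ : (F' ≃ₐ[F] F') → Dˣ) (ι : B →+* D) : Prop where
  pair : IsPair F' O n H y
  fixed : ∀ σ ∈ K.fixingSubgroup, σ • y = γ σ • y
  scalars : ∀ a : K, ι (algebraMap K B a) = algebraMap F' D (a : F')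
  range : ∀ d : D, (∃ b, ι b = d) ↔
    ∀ σ ∈ K.fixingSubgroup, (σ • d) * (γ σ : D) = (γ σ : D) * d

open Classical in
/-- The pull-back of a function on the pairs of `D` to the pairs of `B` (of level `(O₁, n, H₁)`),
along the map `jmap` attached to the pair `y` of `D`. -/
noncomputable def pullB {k : Type*} [Zero k] (K : Type*) [Field K] [NumberField K]
    {B D : Type*} [Ring B] [Ring D] [Algebra K B] (O₁ : Subring B) (n : ℕ) (H₁ : Set B)
    (ι : B →+* D) (y : AddSubgroup D × Set D) (f : AddSubgroup D × Set D → k) :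
    AddSubgroup B × Set B → k :=
  fun b => if IsPair K O₁ n H₁ b then f (jmap ι n y b) else 0

section Mult

variable {k : Type*} [Field k] {F F' L D : Type u}
  [Field F] [NumberField F] [Field F'] [NumberField F'] [Field L] [NumberField L]
  [Algebra F F'] [Algebra F L] [Algebra F' L] [IsScalarTower F F' L]
  [DivisionRing D] [Algebra F' D] [MulSemiringAction (F' ≃ₐ[F] F') D]

/-- The functions on the pairs of `D` whose class is fixed by `Gal(F'/K)`, invariant under the
units of `D`, whose pull-back to every twisted form over `K` lies in the generalised eigenspace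
of `ρ` restricted to the Galois group of `K`. This set is a linear subspace. -/
def multSet (ρ : (L ≃ₐ[F] L) →* Matrix.GeneralLinearGroup (Fin 2) k) (O : Subring D) (n : ℕ)
    (H : Set D) (N : ℕ) (K : IntermediateField F F') : Set (AddSubgroup D × Set D → k) :=
  {f | (∀ y, f y ≠ 0 → IsPair F' O n H y ∧ ∀ σ ∈ K.fixingSubgroup, ∃ d : Dˣ, σ • y = d • y) ∧
    (∀ (d : Dˣ) (y : AddSubgroup D × Set D), f (d • y) = f y) ∧
    ∀ (B : Type u) [DivisionRing B] [Algebra K B] (y : AddSubgroup D × Set D)
      (γ : (F' ≃ₐ[F] F') → Dˣ) (ι : B →+* D), IsTwistedFormOver K O n H y γ ι →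
        pullB K (OB ι y.1) n (HB ι y) ι y f ∈ eigenSpace F K ρ (OB ι y.1) n (HB ι y) N}

/-- The multiplicity of `ρ` over the intermediate field `K`. -/
noncomputable def multOver (ρ : (L ≃ₐ[F] L) →* Matrix.GeneralLinearGroup (Fin 2) k)
    (O : Subring D) (n : ℕ) (H : Set D) (N : ℕ) (K : IntermediateField F F') : ℕ :=
  Module.finrank k (Submodule.span k (multSet ρ O n H N K))

/-- `ρ` occurs over `K`: there is a twisted form over `K` with a nonzero eigenform of the
Hecke operators at all primes of `K` not dividing `N`, with the traces of `ρ` at the Frobenius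
elements as eigenvalues. -/
def OccursOver (ρ : (L ≃ₐ[F] L) →* Matrix.GeneralLinearGroup (Fin 2) k)
    (O : Subring D) (n : ℕ) (H : Set D) (N : ℕ) (K : IntermediateField F F') : Prop :=
  ∃ (B : Type u) (_ : DivisionRing B) (_ : Algebra K B) (y : AddSubgroup D × Set D)
    (γ : (F' ≃ₐ[F] F') → Dˣ) (ι : B →+* D) (g : AddSubgroup B × Set B → k),
    IsTwistedFormOver K O n H y γ ι ∧ IsForm K (OB ι y.1) n (HB ι y) g ∧ g ≠ 0 ∧
    ∀ v : Ideal (𝓞 K), v.IsMaximal → (N : 𝓞 K) ∉ v →
      ∀ (φ : L ≃ₐ[K] L) (Q : Ideal (𝓞 L)), IsFrob K φ Q v →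
        hecke K (OB ι y.1) n (HB ι y) v g =
          Matrix.trace (ρ (φ.restrictScalars F) : Matrix (Fin 2) (Fin 2) k) • g

end Mult

end Pool.Agent.Helper93.WT
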