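import Pool.Agent.Helper93.WT.Defs
import Pool.Agent.Helper93.WS.Main3

/-!
# Auxiliary definitions: restriction of invariant functions to the fixed classes
-/

open scoped Pointwise NumberField

namespace Pool.Agent.Helper93.WT

open Pool.Agent.Helper93.WS

section Abs

variable (k : Type*) [Field k] {X : Type*} (G : Type*) {P : Type*} [Group G] [Group P]
  [MulAction G X] [MulAction P X]

/-- The functions invariant under the elements of `Q`. -/
def invSub (Q : Set P) : Submodule k (X → k) where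
  carrier := {f | ∀ σ ∈ Q, ∀ x, f (σ • x) = f x}
  add_mem' := by
    intro a b ha hb σ hσ x
    simp only [Pi.add_apply, ha σ hσ x, hb σ hσ x]
  zero_mem' := fun σ _ x => rfl
  smul_mem' := by
    intro c a ha σ hσ x
    simp only [Pi.smul_apply, ha σ hσ x]

open Classical in
/-- Restriction (extended by zero) to the elements of `Y` whose `G`-orbit is fixed by `Q`. -/
noncomputable def fixRes (Y : Set X) (Q : Set P) : (X → k) →ₗ[k] (X → k) where
  toFun f := fun x => if x ∈ Y ∧ ∀ σ ∈ Q, ∃ g : G, σ • x = g • x then f x else 0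
  map_add' f g := by
    funext x
    by_cases hx : x ∈ Y ∧ ∀ σ ∈ Q, ∃ g : G, σ • x = g • x
    · simp only [Pi.add_apply, if_pos hx]
    · simp only [Pi.add_apply, if_neg hx, add_zero]
  map_smul' c f := by
    funext x
    by_cases hx : x ∈ Y ∧ ∀ σ ∈ Q, ∃ g : G, σ • x = g • x
    · simp only [Pi.smul_apply, if_pos hx, RingHom.id_apply]
    · simp only [Pi.smul_apply, if_neg hx, smul_zero]

/-- The restrictions to the `Q`-fixed classes of the `Q`-invariant elements of `E`. -/
noncomputable def fixPart (Y : Set X) (Q : Set P) (E : Submodule k (X → k)) :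
    Submodule k (X → k) :=
  Submodule.map (fixRes k G Y Q) (E ⊓ invSub k Q)

/-- Functions supported on the elements of `Y` with `Q`-fixed `G`-orbit, invariant under `G`. -/
def FixForm (Y : Set X) (Q : Set P) (f : X → k) : Prop :=
  (∀ y, f y ≠ 0 → y ∈ Y ∧ ∀ σ ∈ Q, ∃ g : G, σ • y = g • y) ∧
    ∀ (g : G) (y : X), f (g • y) = f y

open Classical in
/-- Restriction (extended by zero) to the elements fixed by `Q`. -/
noncomputable def fixRes₀ (Q : Set P) : (X → k) →ₗ[k] (X → k) where
  toFun f := fun x => if ∀ σ ∈ Q, σ • x = x then f x else 0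
  map_add' f g := by
    funext x
    by_cases hx : ∀ σ ∈ Q, σ • x = x
    · simp only [Pi.add_apply, if_pos hx]
    · simp only [Pi.add_apply, if_neg hx, add_zero]
  map_smul' c f := by
    funext x
    by_cases hx : ∀ σ ∈ Q, σ • x = x
    · simp only [Pi.smul_apply, if_pos hx, RingHom.id_apply]
    · simp only [Pi.smul_apply, if_neg hx, smul_zero]

end Abs

section Base

universe u

variable {k : Type*} [Field k] {F F' L D : Type u}
  [Field F] [NumberField F] [Field F'] [NumberField F'] [Field L] [NumberField L]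
  [Algebra F F'] [Algebra F L] [Algebra F' L] [IsScalarTower F F' L]
  [DivisionRing D] [Algebra F' D] [MulSemiringAction (F' ≃ₐ[F] F') D]

/-- The version of `multSet` over the base field. -/
def multBase (ρ : (L ≃ₐ[F] L) →* Matrix.GeneralLinearGroup (Fin 2) k) (O : Subring D) (n : ℕ)
    (H : Set D) (N : ℕ) : Set (AddSubgroup D × Set D → k) :=
  {f | (∀ y, f y ≠ 0 → IsPair F' O n H y ∧ ∀ σ : F' ≃ₐ[F] F', ∃ d : Dˣ, σ • y = d • y) ∧
    (∀ (d : Dˣ) (y : AddSubgroup D × Set D), f (d • y) = f y) ∧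
    ∀ (B : Type u) [DivisionRing B] [Algebra F B] (y : AddSubgroup D × Set D)
      (γ : (F' ≃ₐ[F] F') → Dˣ) (ι : B →+* D), IsTwistedForm O n H y γ ι →
        pullB F (OB ι y.1) n (HB ι y) ι y f ∈ eigenSpace F F ρ (OB ι y.1) n (HB ι y) N}

/-- The version of `OccursOver` over the base field. -/
def OccursBase (ρ : (L ≃ₐ[F] L) →* Matrix.GeneralLinearGroup (Fin 2) k)
    (O : Subring D) (n : ℕ) (H : Set D) (N : ℕ) : Prop :=
  ∃ (B : Type u) (_ : DivisionRing B) (_ : Algebra F B) (y : AddSubgroup D × Set D)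
    (γ : (F' ≃ₐ[F] F') → Dˣ) (ι : B →+* D) (g : AddSubgroup B × Set B → k),
    IsTwistedForm O n H y γ ι ∧ IsForm F (OB ι y.1) n (HB ι y) g ∧ g ≠ 0 ∧
    ∀ v : Ideal (𝓞 F), v.IsMaximal → (N : 𝓞 F) ∉ v →
      ∀ (φ : L ≃ₐ[F] L) (Q : Ideal (𝓞 L)), IsFrob F φ Q v →
        hecke F (OB ι y.1) n (HB ι y) v g =
          Matrix.trace (ρ φ : Matrix (Fin 2) (Fin 2) k) • g

end Base

end Pool.Agent.Helper93.WT
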