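import Pool.Agent.Helper93.WT.Defs

/-!
# Names for the hypotheses and for the conclusion of the theorem on multiplicities
-/

open scoped Pointwise NumberField TensorProduct

namespace Pool.Agent.Helper93.WT

open Pool.Agent.Helper93.WS

universe u

/-- The hypotheses on the order and on the level: `Gal(F'/F)` acts semilinearly on `D`, `O` is a
stable order, `H` is a stable level group mod `n`, and the stabilisers of the pairs are central. -/
structure LevelData (F F' : Type*) [Field F] [NumberField F] [Field F'] [NumberField F']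
    [Algebra F F'] {D : Type*} [DivisionRing D] [Algebra F' D]
    [MulSemiringAction (F' ≃ₐ[F] F') D] (O : Subring D) (n : ℕ) (H : Set D) : Prop where
  act : ∀ (σ : F' ≃ₐ[F] F') (a : F'), σ • algebraMap F' D a = algebraMap F' D (σ a)
  order : IsOrder F' O
  order_stable : ∀ (σ : F' ≃ₐ[F] F'), ∀ a ∈ O, σ • a ∈ O
  pos : n ≠ 0
  level : IsLevel O n H
  level_stable : ∀ (σ : F' ≃ₐ[F] F'), ∀ h ∈ H, σ • h ∈ H
  central : ∀ y, IsPair F' O n H y → ∀ d : Dˣ, d • y = y → ∃ a : F', (d : D) = algebraMap F' D a

/-- `O / w O` is the algebra of `2 × 2` matrices for all maximal ideals `w` prime to `N`. -/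
def SplitOutside (K : Type*) [Field K] [NumberField K] {B : Type*} [Ring B] [Algebra K B]
    (O : Subring B) (N : ℕ) : Prop :=
  ∀ w : Ideal (𝓞 K), w.IsMaximal → (N : 𝓞 K) ∉ w → Split K O w

/-- `ρ` is trivial on the inertia groups of all maximal ideals prime to `N`. -/
def UnramifiedOutside {k : Type*} [Field k] {F L : Type*} [Field F] [Field L] [NumberField L]
    [Algebra F L] (ρ : (L ≃ₐ[F] L) →* Matrix.GeneralLinearGroup (Fin 2) k) (N : ℕ) : Prop :=
  ∀ Q : Ideal (𝓞 L), Q.IsMaximal → (N : 𝓞 L) ∉ Q → ∀ τ : L ≃ₐ[F] L,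
    (∀ x : 𝓞 L, τ • x - x ∈ Q) → ρ τ = 1

/-- `B` (with the lattice `Λ` of `D`) is a form of `D` over `K`, the elements of `B` preserving
`Λ` form an order with level group `H₁` mod `n`, and `B` is totally definite if `F'` is totally
real and `D` totally definite. -/
def GoodForm {F F' : Type*} [Field F] [NumberField F] [Field F'] [NumberField F']
    [Algebra F F'] {B D : Type*} [DivisionRing B] [DivisionRing D] [Algebra F' D]
    (K : IntermediateField F F') [Algebra K B] (O₁ : Subring B) (n : ℕ) (H₁ : Set B)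
    (_ι : B →+* D) : Prop :=
  Nonempty ((F' ⊗[K] B) ≃ₐ[F'] D) ∧ IsOrder K O₁ ∧ IsLevel O₁ n H₁ ∧
    (NumberField.IsTotallyReal F' → TotallyDefinite F' D → TotallyDefinite K B)

/-- The subspace `E` of the functions on `X` is stable under `P` and, as a representation of `P`,
isomorphic (by the restriction of a linear map `φ`) to the space of all functions on `Y`. -/
def IsPermModule {k : Type*} [Field k] {X P : Type*} [Group P] [MulAction P X]
    (E : Submodule k (X → k)) (Y : Type*) [MulAction P Y] : Prop :=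
  ∃ φ : (X → k) →ₗ[k] (Y → k), (∀ g : Y → k, ∃! f, f ∈ E ∧ φ f = g) ∧
    ∀ (σ : P), ∀ f ∈ E, (fun x => f (σ • x)) ∈ E ∧
      ∀ y, φ (fun x => f (σ • x)) y = φ f (σ • y)

section Model

variable {k : Type*} [Field k] {F F' L D : Type u}
  [Field F] [NumberField F] [Field F'] [NumberField F'] [Field L] [NumberField L]
  [Algebra F F'] [Algebra F L] [Algebra F' L] [IsScalarTower F F' L]
  [DivisionRing D] [Algebra F' D] [MulSemiringAction (F' ≃ₐ[F] F') D]

/-- For all intermediate fields `K` with `Gal(F'/K) ≤ P` the number of fixed points of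
`Gal(F'/K)` on the `P`-set `Y` is the multiplicity of `ρ` over `K`. -/
def HasMarks (ρ : (L ≃ₐ[F] L) →* Matrix.GeneralLinearGroup (Fin 2) k)
    (O : Subring D) (n : ℕ) (H : Set D) (N : ℕ) (P : Subgroup (F' ≃ₐ[F] F')) (Y : Type)
    [MulAction P Y] : Prop :=
  ∀ K : IntermediateField F F', K.fixingSubgroup ≤ P →
    Nat.card {y : Y // ∀ σ : P, (σ : F' ≃ₐ[F] F') ∈ K.fixingSubgroup → σ • y = y} =
      multOver ρ O n H N K

end Model

end Pool.Agent.Helper93.WT
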