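import Pool.Agent.Helper93.WT.Defs2

/-!
# From the base field to an intermediate field
-/

open scoped Pointwise NumberField

namespace Pool.Agent.Helper93.WT

open Pool.Agent.Helper93.WS

universe u

/-- The action of `Gal(F'/K)` on `D`. -/
@[reducible] def actOver {F F' : Type*} [Field F] [Field F'] [Algebra F F']
    (K : IntermediateField F F') (D : Type*) [DivisionRing D] [MulSemiringAction (F' ≃ₐ[F] F') D] :
    MulSemiringAction (F' ≃ₐ[K] F') D :=
  MulSemiringAction.compHom D (AlgEquiv.restrictScalarsHom F : (F' ≃ₐ[K] F') →* (F' ≃ₐ[F] F'))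

/-- The restriction of `ρ` to the Galois group of an intermediate field. -/
def resRho {k : Type*} [Field k] {F F' L : Type*} [Field F] [Field F'] [Field L] [Algebra F F']
    [Algebra F L] [Algebra F' L] [IsScalarTower F F' L]
    (ρ : (L ≃ₐ[F] L) →* Matrix.GeneralLinearGroup (Fin 2) k) (K : IntermediateField F F') :
    (L ≃ₐ[K] L) →* Matrix.GeneralLinearGroup (Fin 2) k :=
  ρ.comp (AlgEquiv.restrictScalarsHom F : (L ≃ₐ[K] L) →* (L ≃ₐ[F] L))

variable {k : Type*} [Field k] {F F' L D : Type u}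
  [Field F] [NumberField F] [Field F'] [NumberField F'] [Field L] [NumberField L]
  [Algebra F F'] [Algebra F L] [Algebra F' L] [IsScalarTower F F' L]
  [DivisionRing D] [Algebra F' D] [MulSemiringAction (F' ≃ₐ[F] F') D]

theorem eigenSet_over (ρ : (L ≃ₐ[F] L) →* Matrix.GeneralLinearGroup (Fin 2) k) (O : Subring D)
    (n : ℕ) (H : Set D) (N : ℕ) (K : IntermediateField F F') :
    eigenSet K F' (resRho ρ K) O n H N = eigenSet F F' ρ O n H N := by
  rfl

section Act

omit [NumberField F] [NumberField F'] [Algebra F' D] [MulSemiringAction (F' ≃ₐ[F] F') D]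

private theorem res_mem (K : IntermediateField F F') (s : F' ≃ₐ[K] F') :
    s.restrictScalars F ∈ K.fixingSubgroup := by
  rw [IntermediateField.mem_fixingSubgroup_iff]
  intro x hx
  exact s.commutes ⟨x, hx⟩

private theorem exists_res (K : IntermediateField F F') (σ : F' ≃ₐ[F] F')
    (hσ : σ ∈ K.fixingSubgroup) : ∃ s : F' ≃ₐ[K] F', s.restrictScalars F = σ := by
  refine ⟨K.fixingSubgroupEquiv ⟨σ, hσ⟩, ?_⟩
  ext x
  rfl

private theorem exists_ext (K : IntermediateField F F') (γ' : (F' ≃ₐ[K] F') → Dˣ) :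
    ∃ γ : (F' ≃ₐ[F] F') → Dˣ, γ' = fun s => γ (s.restrictScalars F) := by
  refine ⟨Function.extend (fun s : F' ≃ₐ[K] F' => s.restrictScalars F) γ' 1, ?_⟩
  funext s
  exact ((AlgEquiv.restrictScalars_injective F).extend_apply γ' 1 s).symm

end Act

private theorem twisted_iff {B : Type u} [DivisionRing B] (K : IntermediateField F F')
    [Algebra K B] (O : Subring D) (n : ℕ) (H : Set D) (y : AddSubgroup D × Set D)
    (γ : (F' ≃ₐ[F] F') → Dˣ) (ι : B →+* D) :
    letI := actOver K D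
    IsTwistedForm (F := K) (F' := F') O n H y (fun s => γ (s.restrictScalars F)) ι ↔
      IsTwistedFormOver K O n H y γ ι := by
  letI := actOver K D
  constructor
  · intro h
    refine ⟨h.pair, ?_, h.scalars, ?_⟩
    · intro σ hσ
      obtain ⟨s, rfl⟩ := exists_res K σ hσ
      exact h.fixed s
    · intro d
      rw [h.range d]
      constructor
      · intro h1 σ hσ
        obtain ⟨s, rfl⟩ := exists_res K σ hσ
        exact h1 s
      · intro h1 s
        exact h1 _ (res_mem K s)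
  · intro h
    refine ⟨h.pair, ?_, h.scalars, ?_⟩
    · intro s
      exact h.fixed _ (res_mem K s)
    · intro d
      rw [h.range d]
      constructor
      · intro h1 s
        exact h1 _ (res_mem K s)
      · intro h1 σ hσ
        obtain ⟨s, rfl⟩ := exists_res K σ hσ
        exact h1 s

private theorem eigenSpace_self {B : Type u} [DivisionRing B] (K : IntermediateField F F')
    [Algebra K B] (ρ : (L ≃ₐ[F] L) →* Matrix.GeneralLinearGroup (Fin 2) k) (O₁ : Subring B)
    (n : ℕ) (H₁ : Set B) (N : ℕ) :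
    eigenSpace K K (resRho ρ K) O₁ n H₁ N = eigenSpace F K ρ O₁ n H₁ N := rfl

private theorem fixed_iff (K : IntermediateField F F') (y : AddSubgroup D × Set D) :
    letI := actOver K D
    (∀ s : F' ≃ₐ[K] F', ∃ d : Dˣ, s • y = d • y) ↔
      ∀ σ ∈ K.fixingSubgroup, ∃ d : Dˣ, σ • y = d • y := by
  letI := actOver K D
  constructor
  · intro h1 σ hσ
    obtain ⟨s, rfl⟩ := exists_res K σ hσ
    exact h1 s
  · intro h1 s
    exact h1 _ (res_mem K s)

theorem multBase_over (ρ : (L ≃ₐ[F] L) →* Matrix.GeneralLinearGroup (Fin 2) k) (O : Subring D)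
    (n : ℕ) (H : Set D) (N : ℕ) (K : IntermediateField F F') :
    letI := actOver K D
    multBase (F := K) (F' := F') (resRho ρ K) O n H N = multSet ρ O n H N K := by
  letI := actOver K D
  ext f
  constructor
  · rintro ⟨h1, h2, h3⟩
    refine ⟨fun y hy => ⟨(h1 y hy).1, (fixed_iff K y).1 (h1 y hy).2⟩, h2, ?_⟩
    intro B _ _ y γ ι hT
    exact h3 B y _ ι ((twisted_iff K O n H y γ ι).2 hT)
  · rintro ⟨h1, h2, h3⟩
    refine ⟨fun y hy => ⟨(h1 y hy).1, (fixed_iff K y).2 (h1 y hy).2⟩, h2, ?_⟩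
    intro B _ _ y γ' ι hT
    obtain ⟨γ, rfl⟩ := exists_ext K γ'
    exact h3 B y γ ι ((twisted_iff K O n H y γ ι).1 hT)

theorem occursBase_over (ρ : (L ≃ₐ[F] L) →* Matrix.GeneralLinearGroup (Fin 2) k) (O : Subring D)
    (n : ℕ) (H : Set D) (N : ℕ) (K : IntermediateField F F') :
    letI := actOver K D
    OccursBase (F := K) (F' := F') (resRho ρ K) O n H N ↔ OccursOver ρ O n H N K := by
  letI := actOver K D
  constructor
  · rintro ⟨B, i1, i2, y, γ', ι, g, hT, h1, h2, h3⟩
    obtain ⟨γ, rfl⟩ := exists_ext K γ'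
    exact ⟨B, i1, i2, y, γ, ι, g, (twisted_iff K O n H y γ ι).1 hT, h1, h2, h3⟩
  · rintro ⟨B, i1, i2, y, γ, ι, g, hT, h1, h2, h3⟩
    exact ⟨B, i1, i2, y, _, ι, g, (twisted_iff K O n H y γ ι).2 hT, h1, h2, h3⟩

theorem fixPart_over (Y : Set (AddSubgroup D × Set D)) (K : IntermediateField F F')
    (E : Submodule k (AddSubgroup D × Set D → k)) :
    letI := actOver K D
    fixPart k Dˣ Y (Set.univ : Set (F' ≃ₐ[K] F')) E =
      fixPart k Dˣ Y (K.fixingSubgroup : Set (F' ≃ₐ[F] F')) E := by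
  letI := actOver K D
  have e1 : invSub (X := AddSubgroup D × Set D) k (Set.univ : Set (F' ≃ₐ[K] F')) =
      invSub k (K.fixingSubgroup : Set (F' ≃ₐ[F] F')) := by
    ext f
    constructor
    · intro h1 σ hσ
      obtain ⟨s, rfl⟩ := exists_res K σ hσ
      exact h1 s (Set.mem_univ s)
    · intro h1 s _
      exact h1 _ (res_mem K s)
  have e2 : fixRes (X := AddSubgroup D × Set D) k Dˣ Y (Set.univ : Set (F' ≃ₐ[K] F')) =
      fixRes k Dˣ Y (K.fixingSubgroup : Set (F' ≃ₐ[F] F')) := by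
    ext f y
    have h3 : (y ∈ Y ∧ ∀ s ∈ (Set.univ : Set (F' ≃ₐ[K] F')), ∃ g : Dˣ, s • y = g • y) ↔
        (y ∈ Y ∧ ∀ σ ∈ (K.fixingSubgroup : Set (F' ≃ₐ[F] F')), ∃ g : Dˣ, σ • y = g • y) :=
      and_congr_right fun _ => ⟨fun h σ hσ => (fixed_iff K y).1 (fun s => h s (Set.mem_univ s)) σ hσ,
        fun h s _ => (fixed_iff K y).2 (fun σ hσ => h σ hσ) s⟩
    by_cases h4 : y ∈ Y ∧ ∀ σ ∈ (K.fixingSubgroup : Set (F' ≃ₐ[F] F')), ∃ g : Dˣ, σ • y = g • y
    · exact (if_pos (h3.2 h4)).trans (if_pos h4).symm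
    · exact (if_neg (fun h => h4 (h3.1 h))).trans (if_neg h4).symm
  unfold fixPart
  rw [e1, e2]

end Pool.Agent.Helper93.WT
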