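import Pool.Agent.Helper93.WT.Defs2

/-!
# The dimension of the Brauer quotients of a permutation module of a p-group
-/

namespace Pool.Agent.Helper93.WT

/-- weighted fixed point principle for p-groups -/
private theorem sum_zero_of_fixed {p : ℕ} [Fact p.Prime] {k : Type*} [Field k] [CharP k p]
    {P : Type*} [Group P] [Finite P] (hP : IsPGroup p P) {C : Type*} [Fintype C]
    [MulAction P C] (s : C → k) (hs : ∀ (σ : P) (c : C), s (σ • c) = s c)
    (hfix : ∀ c ∈ MulAction.fixedPoints P C, s c = 0) : ∑ c, s c = 0 := by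
  classical
  have h1 := Finset.sum_comp (s := (Finset.univ : Finset C)) (fun v : k => v) s
  rw [h1]
  refine Finset.sum_eq_zero fun v _ => ?_
  by_cases hv : v = 0
  · rw [hv, smul_zero]
  let A : SubMulAction P C :=
    { carrier := {c | s c = v}
      smul_mem' := fun σ c hc => by
        show s (σ • c) = v
        rw [hs]
        exact hc }
  have h2 : Nat.card A ≡ Nat.card (MulAction.fixedPoints P A) [MOD p] :=
    hP.card_modEq_card_fixedPoints A
  have h3 : IsEmpty (MulAction.fixedPoints P A) := by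
    refine ⟨fun x => ?_⟩
    have hx : ((x : A) : C) ∈ MulAction.fixedPoints P C := by
      intro σ
      have := x.2 σ
      exact congrArg Subtype.val this
    have h4 : s ((x : A) : C) = v := (x : A).2
    exact hv (h4.symm.trans (hfix _ hx))
  have h7 : Nat.card (MulAction.fixedPoints P A) = 0 := Nat.card_of_isEmpty
  rw [h7] at h2
  have h5 : (Finset.univ.filter fun c => s c = v).card = Nat.card A := by
    rw [Nat.card_eq_fintype_card]
    exact (Fintype.card_subtype _).symm
  have h6 : ((Finset.univ.filter fun c => s c = v).card : k) = 0 := by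
    rw [h5, CharP.cast_eq_zero_iff k p]
    exact (Nat.modEq_zero_iff_dvd).1 h2
  rw [nsmul_eq_mul, h6, zero_mul]

/-- translates of delta functions -/
private theorem single_smul {k : Type*} [Field k] {P C : Type*} [Group P] [MulAction P C]
    [DecidableEq C] (σ : P) (c : C) (a : k) :
    (fun x => (Pi.single (σ • c) a : C → k) (σ • x)) = Pi.single c a := by
  funext x
  by_cases hx : x = c
  · subst hx
    rw [Pi.single_eq_same, Pi.single_eq_same]
  · rw [Pi.single_eq_of_ne hx, Pi.single_eq_of_ne]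
    exact fun h => hx (MulAction.injective σ h)

/-- An equivariant linear image of an invariant function which vanishes on the fixed points
vanishes on the fixed points. -/
private theorem vanish_of_vanish {p : ℕ} [Fact p.Prime] {k : Type*} [Field k] [CharP k p]
    {P : Type*} [Group P] [Finite P] (hP : IsPGroup p P) {A B : Type*} [Fintype A]
    [MulAction P A] [MulAction P B] (ψ : (A → k) →ₗ[k] (B → k))
    (hψ : ∀ (σ : P) (f : A → k) (b : B), ψ (fun x => f (σ • x)) b = ψ f (σ • b))
    (f : A → k) (hf : ∀ (σ : P) x, f (σ • x) = f x)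
    (hf0 : ∀ x, (∀ σ : P, σ • x = x) → f x = 0) (b : B) (hb : ∀ σ : P, σ • b = b) :
    ψ f b = 0 := by
  classical
  have h1 : f = ∑ x, f x • (Pi.single x 1 : A → k) := by
    funext y
    rw [Finset.sum_apply]
    simp [Pi.single_apply]
  have h2 : ψ f b = ∑ x, f x * ψ (Pi.single x 1) b := by
    conv_lhs => rw [h1]
    rw [map_sum, Finset.sum_apply]
    refine Finset.sum_congr rfl fun x _ => ?_
    rw [map_smul, Pi.smul_apply, smul_eq_mul]
  rw [h2]
  refine sum_zero_of_fixed hP _ (fun σ x => ?_) (fun x hx => ?_)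
  · have h3 := hψ σ (Pi.single (σ • x) 1) b
    rw [single_smul, hb σ] at h3
    show f (σ • x) * ψ (Pi.single (σ • x) 1) b = f x * ψ (Pi.single x 1) b
    rw [hf, h3]
  · show f x * ψ (Pi.single x 1) b = 0
    rw [hf0 x (fun σ => hx σ), zero_mul]

theorem brauer_dim {p : ℕ} [Fact p.Prime] {k : Type*} [Field k] [CharP k p] {P : Type*}
    [Group P] [Finite P] (hP : IsPGroup p P) {Ω : Type*} [Finite Ω] [MulAction P Ω]
    (M M' : Submodule k (Ω → k)) (hc : IsCompl M M')
    (hM : ∀ (σ : P), ∀ f ∈ M, (fun x => f (σ • x)) ∈ M)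
    (hM' : ∀ (σ : P), ∀ f ∈ M', (fun x => f (σ • x)) ∈ M')
    {Z : Type*} [Finite Z] [MulAction P Z] (φ : M ≃ₗ[k] (Z → k))
    (hφ : ∀ (σ : P) (f f' : M), (∀ x, (f' : Ω → k) x = (f : Ω → k) (σ • x)) →
        ∀ z, φ f' z = φ f (σ • z)) (Q : Subgroup P) :
    Nat.card {z : Z // ∀ σ ∈ Q, σ • z = z} =
      Module.finrank k (Submodule.map (fixRes₀ k (Q : Set P)) (M ⊓ invSub k (Q : Set P))) := by
  classical
  have iΩ : Fintype Ω := Fintype.ofFinite Ω
  have iZ : Fintype Z := Fintype.ofFinite Z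
  have hQ : IsPGroup p Q := hP.to_subgroup Q
  -- the equivariant projection
  let e : (Ω → k) →ₗ[k] M := M.projectionOnto M' hc
  have he : ∀ (σ : P) (f : Ω → k) (x : Ω),
      ((e (fun x => f (σ • x)) : M) : Ω → k) x = ((e f : M) : Ω → k) (σ • x) := by
    intro σ f x
    obtain ⟨a, ha, b, hb, rfl⟩ := Submodule.mem_sup.1
      (show f ∈ M ⊔ M' by rw [hc.sup_eq_top]; exact Submodule.mem_top)
    have h1 : (fun x => (a + b) (σ • x)) = (fun x => a (σ • x)) + (fun x => b (σ • x)) := rfl
    have h2 : e (fun x => a (σ • x)) = ⟨_, hM σ a ha⟩ :=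
      Submodule.projectionOnto_apply_of_mem_left hc (hM σ a ha)
    have h3 : e (fun x => b (σ • x)) = 0 :=
      Submodule.projectionOnto_apply_of_mem_right hc (hM' σ b hb)
    have h4 : e a = ⟨a, ha⟩ := Submodule.projectionOnto_apply_of_mem_left hc ha
    have h5 : e b = 0 := Submodule.projectionOnto_apply_of_mem_right hc hb
    rw [h1, map_add, map_add, h2, h3, h4, h5, add_zero, add_zero]
  have he1 : ∀ f : M, e (f : Ω → k) = f := fun f =>
    Submodule.projectionOnto_apply_of_mem_left hc f.2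
  -- `ψ` and `θ`: the two equivariant maps
  let ψ : (Ω → k) →ₗ[k] (Z → k) := φ.toLinearMap ∘ₗ e
  let θ : (Z → k) →ₗ[k] (Ω → k) := M.subtype ∘ₗ φ.symm.toLinearMap
  have hψ : ∀ (σ : Q) (f : Ω → k) (z : Z), ψ (fun x => f (σ • x)) z = ψ f (σ • z) := by
    intro σ f z
    exact hφ (σ : P) (e f) (e (fun x => f ((σ : P) • x))) (he (σ : P) f) z
  have hθ : ∀ (σ : Q) (g : Z → k) (x : Ω), θ (fun z => g (σ • z)) x = θ g (σ • x) := by
    intro σ g x
    have h1 : φ.symm (fun z => g ((σ : P) • z)) =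
        ⟨_, hM (σ : P) _ (φ.symm g).2⟩ := by
      rw [LinearEquiv.symm_apply_eq]
      funext z
      rw [hφ (σ : P) (φ.symm g) _ (fun x => rfl) z, LinearEquiv.apply_symm_apply]
    show ((φ.symm (fun z => g ((σ : P) • z)) : M) : Ω → k) x =
      ((φ.symm g : M) : Ω → k) ((σ : P) • x)
    rw [h1]
  let N : Submodule k (Ω → k) := M ⊓ invSub k (Q : Set P)
  let A : N →ₗ[k] (Ω → k) := (fixRes₀ k (Q : Set P)).domRestrict N
  let B : N →ₗ[k] ({z : Z // ∀ σ ∈ Q, σ • z = z} → k) :=
    LinearMap.funLeft k k Subtype.val ∘ₗ ψ ∘ₗ N.subtype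
  have hA : ∀ n : N, A n = 0 ↔ ∀ x, (∀ σ : Q, σ • x = x) → (n : Ω → k) x = 0 := by
    intro n
    constructor
    · intro h x hx
      have h1 := congrFun h x
      have h2 : A n x = if ∀ σ ∈ (Q : Set P), σ • x = x then (n : Ω → k) x else 0 := rfl
      have hx' : ∀ σ ∈ (Q : Set P), σ • x = x := fun σ hσ => hx ⟨σ, hσ⟩
      rw [h2, if_pos hx'] at h1
      exact h1
    · intro h
      funext x
      have h2 : A n x = if ∀ σ ∈ (Q : Set P), σ • x = x then (n : Ω → k) x else 0 := rfl
      rw [h2]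
      by_cases hx : ∀ σ ∈ (Q : Set P), σ • x = x
      · rw [if_pos hx]
        exact h x (fun σ => hx σ.1 σ.2)
      · rw [if_neg hx]
        rfl
  have hB : ∀ n : N, B n = 0 ↔ ∀ z, (∀ σ : Q, σ • z = z) → ψ (n : Ω → k) z = 0 := by
    intro n
    constructor
    · intro h z hz
      exact congrFun h ⟨z, fun σ hσ => hz ⟨σ, hσ⟩⟩
    · intro h
      funext z
      exact h z.1 (fun σ => z.2 σ.1 σ.2)
  have hker : LinearMap.ker A = LinearMap.ker B := by
    ext n
    rw [LinearMap.mem_ker, LinearMap.mem_ker, hA, hB]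
    have hn1 : (n : Ω → k) ∈ M := n.2.1
    have hn2 : ∀ (σ : Q) x, (n : Ω → k) (σ • x) = (n : Ω → k) x := fun σ x =>
      n.2.2 σ.1 σ.2 x
    constructor
    · intro h z hz
      exact vanish_of_vanish hQ ψ hψ (n : Ω → k) hn2 h z hz
    · intro h x hx
      have h1 : θ (ψ (n : Ω → k)) = (n : Ω → k) := by
        show ((φ.symm (φ (e (n : Ω → k))) : M) : Ω → k) = (n : Ω → k)
        rw [LinearEquiv.symm_apply_apply, he1 ⟨(n : Ω → k), hn1⟩]
      rw [← h1]
      refine vanish_of_vanish hQ θ hθ (ψ (n : Ω → k)) (fun σ z => ?_) h x hx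
      rw [← hψ σ (n : Ω → k) z]
      have h3 : (fun x => (n : Ω → k) (σ • x)) = (n : Ω → k) := funext (hn2 σ)
      rw [h3]
  have hBsurj : LinearMap.range B = ⊤ := by
    rw [LinearMap.range_eq_top]
    intro g
    let g' : Z → k := fun z => if h : ∀ σ ∈ Q, σ • z = z then g ⟨z, h⟩ else 0
    have hg' : ∀ (σ : Q) z, g' (σ • z) = g' z := by
      intro σ z
      by_cases hz : ∀ σ ∈ Q, σ • z = z
      · rw [show σ • z = z from hz σ.1 σ.2]
      · have hz' : ¬ ∀ τ ∈ Q, τ • (σ • z) = σ • z := by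
          intro h
          have h2 : σ • z = z := by
            have h3 := h (σ⁻¹ : Q).1 (σ⁻¹ : Q).2
            have h4 : (σ⁻¹ : Q).1 • (σ • z) = z := by
              show ((σ⁻¹ : Q) : P) • ((σ : P) • z) = z
              rw [InvMemClass.coe_inv, inv_smul_smul]
            rw [h4] at h3
            exact h3.symm
          exact hz (by rw [h2] at h; exact h)
        show (if h : ∀ τ ∈ Q, τ • (σ • z) = σ • z then g ⟨σ • z, h⟩ else 0) =
          (if h : ∀ τ ∈ Q, τ • z = z then g ⟨z, h⟩ else 0)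
        rw [dif_neg hz', dif_neg hz]
    have hmem : θ g' ∈ N := by
      refine ⟨(φ.symm g').2, fun σ hσ x => ?_⟩
      have h1 := hθ ⟨σ, hσ⟩ g' x
      have h2 : (fun z => g' ((⟨σ, hσ⟩ : Q) • z)) = g' := by
        funext z
        exact hg' ⟨σ, hσ⟩ z
      rw [h2] at h1
      exact h1.symm
    refine ⟨⟨θ g', hmem⟩, ?_⟩
    funext z
    show φ (e ((φ.symm g' : M) : Ω → k)) z.1 = g z
    rw [he1, LinearEquiv.apply_symm_apply]
    show (if h : ∀ σ ∈ Q, σ • z.1 = z.1 then g ⟨z.1, h⟩ else 0) = g z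
    rw [dif_pos z.2]
  have hr1 := LinearMap.finrank_range_add_finrank_ker A
  have hr2 := LinearMap.finrank_range_add_finrank_ker B
  rw [hker] at hr1
  have h1 : Module.finrank k (LinearMap.range A) = Module.finrank k (LinearMap.range B) := by
    omega
  rw [LinearMap.range_domRestrict] at h1
  show _ = Module.finrank k (Submodule.map (fixRes₀ k (Q : Set P)) N)
  rw [h1, hBsurj, finrank_top, Module.finrank_fintype_fun_eq_card, Nat.card_eq_fintype_card]

end Pool.Agent.Helper93.WT
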