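import Pool.Agent.Helper93.WT.PermA
import Pool.Agent.Helper93.WT.PermB
import Pool.Agent.Helper93.WS.Abs

/-!
# The P-set attached to a generalised eigenspace
-/

open scoped Pointwise

namespace Pool.Agent.Helper93.WT

open Pool.Agent.Helper93.WS

variable {k : Type*} [Field k] {X : Type*} {G P : Type*} [Group G] [Group P] [MulAction G X]
  [MulAction P X]

/-- The classes contained in `Y`. -/
private def Cls (G : Type*) {X : Type*} [Group G] [MulAction G X] (Y : Set X) : Type _ :=
  {q : MulAction.orbitRel.Quotient G X //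
    ∃ y ∈ Y, (Quotient.mk'' y : MulAction.orbitRel.Quotient G X) = q}

/-- The class of an element of `Y`. -/
private def cls (G : Type*) {X : Type*} [Group G] [MulAction G X] (Y : Set X) (x : X)
    (hx : x ∈ Y) : Cls G Y :=
  ⟨Quotient.mk'' x, x, hx, rfl⟩

private theorem cls_eq {Y : Set X} {x z : X} (hx : x ∈ Y) (hz : z ∈ Y) :
    cls G Y x hx = cls G Y z hz ↔ ∃ g : G, x = g • z := by
  constructor
  · intro h
    have h1 : (Quotient.mk'' x : MulAction.orbitRel.Quotient G X) = Quotient.mk'' z :=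
      congrArg Subtype.val h
    obtain ⟨g, hg⟩ := (Quotient.eq''.1 h1 : x ∈ MulAction.orbit G z)
    exact ⟨g, hg.symm⟩
  · rintro ⟨g, hg⟩
    refine Subtype.ext ?_
    exact Quotient.sound' (show x ∈ MulAction.orbit G z from ⟨g, hg.symm⟩)

private theorem cls_surj {Y : Set X} (q : Cls G Y) : ∃ (x : X) (hx : x ∈ Y), cls G Y x hx = q := by
  obtain ⟨q, y, hy, rfl⟩ := q
  exact ⟨y, hy, rfl⟩

/-- The action of `P` on the classes. -/
@[instance_reducible] private noncomputable def actCls {Y : Set X}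
    (hYP : ∀ (σ : P) (x : X), σ • x ∈ Y ↔ x ∈ Y)
    (hcomp : ∀ (σ : P) (g : G), ∃ g' : G, ∀ x : X, σ • g • x = g' • σ • x) :
    MulAction P (Cls G Y) where
  smul σ q := ⟨Quotient.map' (fun x => σ • x) (fun x z h => by
    have h1 : x ∈ MulAction.orbit G z := h
    obtain ⟨g, hg⟩ := h1
    obtain ⟨g', hg'⟩ := hcomp σ g
    exact ⟨g', by
      show g' • σ • z = σ • x
      rw [← hg', ← hg]⟩) q.1, by
      obtain ⟨q, y, hy, rfl⟩ := q
      exact ⟨σ • y, (hYP σ y).2 hy, rfl⟩⟩
  one_smul q := by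
    obtain ⟨x, hx, rfl⟩ := cls_surj q
    refine Subtype.ext ?_
    show (Quotient.mk'' ((1 : P) • x) : MulAction.orbitRel.Quotient G X) = Quotient.mk'' x
    rw [one_smul]
  mul_smul σ τ q := by
    obtain ⟨x, hx, rfl⟩ := cls_surj q
    refine Subtype.ext ?_
    show (Quotient.mk'' ((σ * τ) • x) : MulAction.orbitRel.Quotient G X) = Quotient.mk'' (σ • τ • x)
    rw [mul_smul]

open Classical in
/-- The function on `X` attached to a function on the classes. -/
private noncomputable def up (k : Type*) [Field k] (G : Type*) {X : Type*} [Group G]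
    [MulAction G X] (Y : Set X) : (Cls G Y → k) →ₗ[k] (X → k) where
  toFun h := fun x => if hx : x ∈ Y then h (cls G Y x hx) else 0
  map_add' f g := by
    funext x
    by_cases hx : x ∈ Y
    · simp only [Pi.add_apply, dif_pos hx]
    · simp only [Pi.add_apply, dif_neg hx, add_zero]
  map_smul' c f := by
    funext x
    by_cases hx : x ∈ Y
    · simp only [Pi.smul_apply, dif_pos hx, RingHom.id_apply]
    · simp only [Pi.smul_apply, dif_neg hx, smul_zero]

private theorem up_pos {Y : Set X} (h : Cls G Y → k) {x : X} (hx : x ∈ Y) :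
    up k G Y h x = h (cls G Y x hx) := dif_pos hx

private theorem up_neg {Y : Set X} (h : Cls G Y → k) {x : X} (hx : x ∉ Y) :
    up k G Y h x = 0 := dif_neg hx

private theorem up_inj (Y : Set X) : Function.Injective (up k G Y) := by
  intro h h' hh
  funext q
  obtain ⟨x, hx, rfl⟩ := cls_surj q
  rw [← up_pos h hx, ← up_pos h' hx, hh]

private theorem up_form {Y : Set X} (hY : ∀ (g : G) (x : X), g • x ∈ Y ↔ x ∈ Y)
    (h : Cls G Y → k) : absForm G Y (up k G Y h) := by
  refine ⟨fun x hx => up_neg h hx, fun g x => ?_⟩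
  by_cases hx : x ∈ Y
  · rw [up_pos h hx, up_pos h ((hY g x).2 hx)]
    congr 1
    exact (cls_eq _ _).2 ⟨g, rfl⟩
  · rw [up_neg h hx, up_neg h fun h1 => hx ((hY g x).1 h1)]

private theorem up_surj {Y : Set X} {f : X → k}
    (hf : absForm G Y f) : ∃ h, up k G Y h = f := by
  choose r hr hr' using fun q : Cls G Y => cls_surj q
  refine ⟨fun q => f (r q), ?_⟩
  funext x
  by_cases hx : x ∈ Y
  · rw [up_pos _ hx]
    obtain ⟨g, hg⟩ := (cls_eq _ _).1 (hr' (cls G Y x hx))
    rw [hg, hf.2]
  · rw [up_neg _ hx, hf.1 x hx]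

theorem exists_pset {p : ℕ} [Fact p.Prime] [CharP k p] [Finite P] (hP : IsPGroup p P)
    (Y : Set X) (hY : ∀ (g : G) (x : X), g • x ∈ Y ↔ x ∈ Y)
    (hYP : ∀ (σ : P) (x : X), σ • x ∈ Y ↔ x ∈ Y)
    (hcomp : ∀ (σ : P) (g : G), ∃ g' : G, ∀ x : X, σ • g • x = g' • σ • x)
    (hfin : ∃ R : Finset X, ∀ y ∈ Y, ∃ g : G, ∃ r ∈ R, y = g • r)
    {I : Type*} (T : I → Module.End k (X → k)) (a : I → k)
    (hT : ∀ i f, absForm G Y f → absForm G Y (T i f))
    (hcomm : ∀ i j f, T i (T j f) = T j (T i f))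
    (hTP : ∀ (σ : P) (i : I), ∃ i' : I, a i' = a i ∧ ∀ f : X → k,
      T i' (fun x => f (σ • x)) = fun x => T i f (σ • x)) :
    ∃ (Z : Type) (_ : Finite Z) (_ : MulAction P Z)
      (φ : (Submodule.span k (absEigen G Y T a)) ≃ₗ[k] (Z → k)),
      (∀ (σ : P) (f f' : Submodule.span k (absEigen G Y T a)),
        (∀ x, (f' : X → k) x = (f : X → k) (σ • x)) → ∀ z, φ f' z = φ f (σ • z)) ∧
      Nat.card Z = Module.finrank k (Submodule.span k (absEigen G Y T a)) ∧
      ∀ Q : Subgroup P, Nat.card {z : Z // ∀ σ ∈ Q, σ • z = z} =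
        Module.finrank k (fixPart k G Y (Q : Set P) (Submodule.span k (absEigen G Y T a))) := by
  classical
  obtain ⟨e, he1, he2, he3⟩ := exists_equivariant hYP hcomp hfin T a hT hcomm hTP
  set E : Submodule k (X → k) := Submodule.span k (absEigen G Y T a) with hEdef
  have hmemE : ∀ f : formSub k G Y, e f = f ↔ (f : X → k) ∈ E := by
    intro f
    rw [he2, hEdef, span_eigen]
    rfl
  have hEform : ∀ f ∈ E, absForm G Y f := by
    intro f hf
    rw [hEdef, span_eigen] at hf
    exact hf.1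
  -- finiteness of the set of classes
  have hΩ : Finite (Cls G Y) := by
    obtain ⟨R, hR⟩ := hfin
    choose r hr hr' using fun q : Cls G Y => cls_surj q
    have h1 : ∀ q, ∃ s : R, ∃ g : G, r q = g • (s : X) := by
      intro q
      obtain ⟨g, s, hs, h2⟩ := hR (r q) (hr q)
      exact ⟨⟨s, hs⟩, g, h2⟩
    choose s g hs using h1
    refine Finite.of_injective s fun q q' h => ?_
    rw [← hr' q, ← hr' q']
    refine (cls_eq _ _).2 ⟨g q * (g q')⁻¹, ?_⟩
    rw [mul_smul, hs q', inv_smul_smul, ← h]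
    exact hs q
  let _ : MulAction P (Cls G Y) := actCls hYP hcomp
  have hsm : ∀ (σ : P) (x : X) (hx : x ∈ Y),
      σ • cls G Y x hx = cls G Y (σ • x) ((hYP σ x).2 hx) := fun σ x hx => rfl
  have hup : ∀ (σ : P) (h : Cls G Y → k) (x : X),
      up k G Y (fun q => h (σ • q)) x = up k G Y h (σ • x) := by
    intro σ h x
    by_cases hx : x ∈ Y
    · rw [up_pos _ hx, up_pos _ ((hYP σ x).2 hx), hsm]
    · rw [up_neg _ hx, up_neg _ fun h1 => hx ((hYP σ x).1 h1)]
  -- the projector on the functions on the classes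
  let U : (Cls G Y → k) ≃ₗ[k] formSub k G Y :=
    LinearEquiv.ofBijective ((up k G Y).codRestrict (formSub k G Y) fun h => up_form hY h)
      ⟨fun h h' hh => up_inj Y (congrArg Subtype.val hh), fun f => by
        obtain ⟨h, hh⟩ := up_surj f.2
        exact ⟨h, Subtype.ext hh⟩⟩
  have hU : ∀ h, ((U h : formSub k G Y) : X → k) = up k G Y h := fun h => rfl
  let e' : Module.End k (Cls G Y → k) := U.symm.toLinearMap ∘ₗ e ∘ₗ U.toLinearMap
  have he' : ∀ h, U (e' h) = e (U h) := fun h => U.apply_symm_apply _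
  have hidem : IsIdempotentElem e' := by
    refine LinearMap.ext fun h => ?_
    apply U.injective
    show U (e' (e' h)) = U (e' h)
    rw [he', he']
    exact congrArg (fun φ : Module.End k (formSub k G Y) => φ (U h)) he1
  have hequiv : ∀ (σ : P) (h : Cls G Y → k), e' (fun q => h (σ • q)) = fun q => e' h (σ • q) := by
    intro σ h
    apply up_inj Y
    funext x
    rw [hup, ← hU, ← hU, he', he']
    exact he3 σ (U h) (U fun q => h (σ • q)) (fun x => hup σ h x) x
  have hrange : ∀ h, h ∈ LinearMap.range e' ↔ up k G Y h ∈ E := by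
    intro h
    rw [LinearMap.IsIdempotentElem.mem_range_iff hidem, ← hU, ← hmemE, ← he']
    exact U.injective.eq_iff.symm
  -- the summands
  have hc : IsCompl (LinearMap.range e') (LinearMap.ker e') :=
    LinearMap.IsIdempotentElem.isCompl hidem
  have hM : ∀ (σ : P), ∀ f ∈ LinearMap.range e', (fun x => f (σ • x)) ∈ LinearMap.range e' := by
    intro σ f hf
    rw [LinearMap.IsIdempotentElem.mem_range_iff hidem] at hf ⊢
    rw [hequiv, hf]
  have hM' : ∀ (σ : P), ∀ f ∈ LinearMap.ker e', (fun x => f (σ • x)) ∈ LinearMap.ker e' := by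
    intro σ f hf
    rw [LinearMap.mem_ker] at hf ⊢
    rw [hequiv, hf]
    rfl
  obtain ⟨Z, hZ, hact, φ, hφ⟩ := perm_summand hP _ _ hc hM hM'
  have hmap : Submodule.map (up k G Y) (LinearMap.range e') = E := by
    ext f
    constructor
    · rintro ⟨h, hh, rfl⟩
      exact (hrange h).1 hh
    · intro hf
      obtain ⟨h, rfl⟩ := up_surj (hEform f hf)
      exact ⟨h, (hrange h).2 hf, rfl⟩
  let ι : LinearMap.range e' ≃ₗ[k] E :=
    (Submodule.equivMapOfInjective _ (up_inj Y) _).trans (LinearEquiv.ofEq _ _ hmap)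
  have hι : ∀ m : LinearMap.range e', ((ι m : E) : X → k) = up k G Y (m : Cls G Y → k) :=
    fun m => rfl
  refine ⟨Z, hZ, hact, ι.symm.trans φ, fun σ f f' h => ?_, ?_, fun Q => ?_⟩
  · have h1 : up k G Y ((ι.symm f : LinearMap.range e') : Cls G Y → k) = (f : X → k) := by
      rw [← hι, LinearEquiv.apply_symm_apply]
    have h2 : up k G Y ((ι.symm f' : LinearMap.range e') : Cls G Y → k) = (f' : X → k) := by
      rw [← hι, LinearEquiv.apply_symm_apply]
    refine hφ σ (ι.symm f) (ι.symm f') fun q => ?_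
    have h3 : ((ι.symm f' : LinearMap.range e') : Cls G Y → k) =
        fun q => ((ι.symm f : LinearMap.range e') : Cls G Y → k) (σ • q) := by
      apply up_inj Y
      funext x
      rw [hup, h1, h2]
      exact h x
    exact congrFun h3 q
  · have : Fintype Z := Fintype.ofFinite Z
    have h1 : Module.finrank k (LinearMap.range e') = Module.finrank k E := by
      rw [← hmap]
      exact (Submodule.equivMapOfInjective _ (up_inj Y) _).finrank_eq
    rw [← h1, φ.finrank_eq, Module.finrank_fintype_fun_eq_card, Nat.card_eq_fintype_card]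
  · rw [brauer_dim hP _ _ hc hM hM' φ hφ Q]
    have hcomm' : ∀ h : Cls G Y → k, up k G Y (fixRes₀ k (Q : Set P) h) =
        fixRes k G Y (Q : Set P) (up k G Y h) := by
      intro h
      funext x
      by_cases hx : x ∈ Y
      · have h3 : (∀ σ ∈ (Q : Set P), σ • cls G Y x hx = cls G Y x hx) ↔
            (x ∈ Y ∧ ∀ σ ∈ (Q : Set P), ∃ g : G, σ • x = g • x) := by
          constructor
          · intro h4
            exact ⟨hx, fun σ hσ => (cls_eq _ _).1 ((hsm σ x hx).symm.trans (h4 σ hσ))⟩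
          · rintro ⟨-, h4⟩ σ hσ
            rw [hsm]
            exact (cls_eq _ _).2 (h4 σ hσ)
        rw [up_pos _ hx]
        show (if ∀ σ ∈ (Q : Set P), σ • cls G Y x hx = cls G Y x hx then h (cls G Y x hx) else 0) =
          if x ∈ Y ∧ ∀ σ ∈ (Q : Set P), ∃ g : G, σ • x = g • x then up k G Y h x else 0
        rw [up_pos _ hx]
        simp only [h3]
      · rw [up_neg _ hx]
        show (0 : k) =
          if x ∈ Y ∧ ∀ σ ∈ (Q : Set P), ∃ g : G, σ • x = g • x then up k G Y h x else 0
        rw [if_neg fun h4 => hx h4.1]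
    have hinv : ∀ h : Cls G Y → k, h ∈ invSub k (Q : Set P) ↔
        up k G Y h ∈ invSub k (Q : Set P) := by
      intro h
      constructor
      · intro h3 σ hσ x
        have h5 : (fun q => h (σ • q)) = h := funext fun q => h3 σ hσ q
        rw [← hup, h5]
      · intro h3 σ hσ q
        obtain ⟨x, hx, rfl⟩ := cls_surj q
        have h4 := h3 σ hσ x
        rw [← hup, up_pos _ hx, up_pos _ hx] at h4
        exact h4
    have h2 : Submodule.map (up k G Y) (Submodule.map (fixRes₀ k (Q : Set P))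
        (LinearMap.range e' ⊓ invSub k (Q : Set P))) = fixPart k G Y (Q : Set P) E := by
      ext f
      constructor
      · rintro ⟨_, ⟨h, ⟨hh1, hh2⟩, rfl⟩, rfl⟩
        exact ⟨up k G Y h, ⟨(hrange h).1 hh1, (hinv h).1 hh2⟩, (hcomm' h).symm⟩
      · rintro ⟨f, ⟨hf1, hf2⟩, rfl⟩
        obtain ⟨h, rfl⟩ := up_surj (hEform f hf1)
        exact ⟨_, ⟨h, ⟨(hrange h).2 hf1, (hinv h).2 hf2⟩, rfl⟩, hcomm' h⟩
    rw [← h2]
    exact (Submodule.equivMapOfInjective _ (up_inj Y) _).finrank_eq

end Pool.Agent.Helper93.WT
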