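import Pool.Agent.Helper93.WT.Over
import Pool.Agent.Helper93.WS.Main4
import Pool.Agent.Helper93.WS.SplitB

/-!
# Properties of the twisted forms over intermediate fields
-/

open scoped Pointwise NumberField TensorProduct

namespace Pool.Agent.Helper93.WT

open Pool.Agent.Helper93.WS

universe u

variable {F F' D : Type*} [Field F] [NumberField F] [Field F'] [NumberField F']
  [Algebra F F'] [IsGalois F F'] [DivisionRing D] [Algebra F' D]
  [MulSemiringAction (F' ≃ₐ[F] F') D] {O : Subring D} {n : ℕ} {H : Set D} {N : ℕ}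

theorem IsTwistedFormOver.toBase {K : IntermediateField F F'} {B : Type*} [DivisionRing B]
    [Algebra K B] {y : AddSubgroup D × Set D} {γ : (F' ≃ₐ[F] F') → Dˣ} {ι : B →+* D}
    (h : IsTwistedFormOver K O n H y γ ι) :
    letI := actOver K D
    IsTwistedForm (F := K) (F' := F') O n H y (fun σ => γ (σ.restrictScalars F)) ι := by
  letI := actOver K D
  have hmem : ∀ σ : F' ≃ₐ[K] F', σ.restrictScalars F ∈ K.fixingSubgroup := by
    intro σ
    rw [IntermediateField.mem_fixingSubgroup_iff]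
    intro x hx
    exact σ.commutes ⟨x, hx⟩
  refine ⟨h.pair, fun σ => h.fixed _ (hmem σ), fun a => h.scalars a, fun d => ?_⟩
  rw [h.range d]
  constructor
  · intro h1 σ
    exact h1 _ (hmem σ)
  · intro h1 τ hτ
    have h2 := h1 (IntermediateField.fixingSubgroupEquiv K ⟨τ, hτ⟩)
    exact h2

theorem over_props
    (hact : ∀ (σ : F' ≃ₐ[F] F') (a : F'), σ • algebraMap F' D a = algebraMap F' D (σ a))
    (hO : IsOrder F' O) (hOP : ∀ (σ : F' ≃ₐ[F] F'), ∀ a ∈ O, σ • a ∈ O)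
    (hn : n ≠ 0) (hH : IsLevel O n H) (hHP : ∀ (σ : F' ≃ₐ[F] F'), ∀ h ∈ H, σ • h ∈ H)
    (hsmall : ∀ y, IsPair F' O n H y → ∀ d : Dˣ, d • y = y → ∃ a : F', (d : D) = algebraMap F' D a)
    (K : IntermediateField F F') {B : Type*} [DivisionRing B]
    [Algebra K B] {y : AddSubgroup D × Set D} {γ : (F' ≃ₐ[F] F') → Dˣ} {ι : B →+* D}
    (h : IsTwistedFormOver K O n H y γ ι) :
    Nonempty ((F' ⊗[K] B) ≃ₐ[F'] D) ∧ IsOrder K (OB ι y.1) ∧
        IsLevel (OB ι y.1) n (HB ι y) ∧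
        (NumberField.IsTotallyReal F' → TotallyDefinite F' D → TotallyDefinite K B) := by
  letI := actOver K D
  have hdat := IsTwistedForm.datum (F := K) (F' := F')
    (fun σ a => hact (σ.restrictScalars F) a) hO
    (fun σ a ha => hOP (σ.restrictScalars F) a ha) hn hH
    (fun σ a ha => hHP (σ.restrictScalars F) a ha) hsmall h.toBase
  refine ⟨hdat.form, hdat.isOrder, hdat.subLevel_HB.lev, ?_⟩
  intro hreal hdef
  obtain ⟨e⟩ := hdat.form
  exact TotallyDefinite.descend e hdef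

theorem over_split
    (hact : ∀ (σ : F' ≃ₐ[F] F') (a : F'), σ • algebraMap F' D a = algebraMap F' D (σ a))
    (hO : IsOrder F' O) (hOP : ∀ (σ : F' ≃ₐ[F] F'), ∀ a ∈ O, σ • a ∈ O)
    (hn : n ≠ 0) (hH : IsLevel O n H) (hHP : ∀ (σ : F' ≃ₐ[F] F'), ∀ h ∈ H, σ • h ∈ H)
    (hsmall : ∀ y, IsPair F' O n H y → ∀ d : Dˣ, d • y = y → ∃ a : F', (d : D) = algebraMap F' D a)
    {r : ℕ} {e e' : Fin r → 𝓞 F'} {m : ℕ} (cas1 : ∑ i, e i * e' i = (m : 𝓞 F'))
    (cas : ∀ σ : F' ≃ₐ[F] F', σ ≠ 1 → ∑ i, e i * σ • e' i = 0)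
    (hmN : m ∣ N)
    (hsplit : ∀ w : Ideal (𝓞 F'), w.IsMaximal → (N : 𝓞 F') ∉ w → Split F' O w)
    (K : IntermediateField F F') {B : Type*} [DivisionRing B]
    [Algebra K B] {y : AddSubgroup D × Set D} {γ : (F' ≃ₐ[F] F') → Dˣ} {ι : B →+* D}
    (h : IsTwistedFormOver K O n H y γ ι) (v : Ideal (𝓞 K)) (hv : v.IsMaximal)
    (hNv : (N : 𝓞 K) ∉ v) : Split K (OB ι y.1) v := by
  letI := actOver K D
  have hdat := IsTwistedForm.datum (F := K) (F' := F')
    (fun σ a => hact (σ.restrictScalars F) a) hO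
    (fun σ a ha => hOP (σ.restrictScalars F) a ha) hn hH
    (fun σ a ha => hHP (σ.restrictScalars F) a ha) hsmall h.toBase
  exact hdat.split_OB (⟨hv, cas1, fun σ hσ => cas (σ.restrictScalars F) (fun h1 => hσ (by
      ext x
      exact congrArg (fun τ : F' ≃ₐ[F] F' => τ x) h1)), notMem_of_dvd hmN hNv⟩ :
      Good e e' m v)
    fun w hw => hsplit w hw.1 (over_notMem hNv hw)

end Pool.Agent.Helper93.WT
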