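import Pool.Agent.Helper93.WT.Base
import Pool.Agent.Helper93.WT.Over
import Pool.Agent.Helper93.WT.PSet
import Pool.Agent.Helper93.WT.Count
import Pool.Agent.Helper93.WT.Prop
import Pool.Agent.Helper93.WT.Defs3

/-!
# The table of multiplicities
-/

open scoped Pointwise NumberField TensorProduct

namespace Pool.Agent.Helper93.WT

open Pool.Agent.Helper93.WS

universe u

theorem fixPart_congr {k : Type*} [Field k] {X G P P' : Type*} [Group G] [Group P] [Group P']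
    [MulAction G X] [MulAction P X] [MulAction P' X] (Y : Set X) (Q : Set P) (Q' : Set P')
    (h : ∀ σ ∈ Q, ∃ τ ∈ Q', ∀ x : X, σ • x = τ • x)
    (h' : ∀ τ ∈ Q', ∃ σ ∈ Q, ∀ x : X, τ • x = σ • x) (E : Submodule k (X → k)) :
    fixPart k G Y Q E = fixPart k G Y Q' E := by
  have h1 : invSub k Q = (invSub k Q' : Submodule k (X → k)) := by
    ext f
    constructor
    · intro hf τ hτ x
      obtain ⟨σ, hσ, hx⟩ := h' τ hτ
      rw [hx]
      exact hf σ hσ x
    · intro hf σ hσ x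
      obtain ⟨τ, hτ, hx⟩ := h σ hσ
      rw [hx]
      exact hf τ hτ x
  have h2 : fixRes k G Y Q = fixRes k G Y Q' := by
    apply LinearMap.ext
    intro f
    funext x
    have h3 : (x ∈ Y ∧ ∀ σ ∈ Q, ∃ g : G, σ • x = g • x) ↔
        (x ∈ Y ∧ ∀ σ ∈ Q', ∃ g : G, σ • x = g • x) := by
      constructor
      · rintro ⟨hx, hx'⟩
        refine ⟨hx, fun τ hτ => ?_⟩
        obtain ⟨σ, hσ, hs⟩ := h' τ hτ
        rw [hs]
        exact hx' σ hσ
      · rintro ⟨hx, hx'⟩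
        refine ⟨hx, fun σ hσ => ?_⟩
        obtain ⟨τ, hτ, hs⟩ := h σ hσ
        rw [hs]
        exact hx' τ hτ
    by_cases hx : x ∈ Y ∧ ∀ σ ∈ Q, ∃ g : G, σ • x = g • x
    · rw [fixRes_pos hx, fixRes_pos (h3.1 hx)]
    · rw [fixRes_neg hx, fixRes_neg (fun h4 => hx (h3.2 h4))]
  unfold fixPart
  rw [h1, h2]

variable {k : Type*} [Field k]
  {F F' L D : Type u} [Field F] [NumberField F] [Field F'] [NumberField F']
  [Field L] [NumberField L] [Algebra F F'] [Algebra F L] [Algebra F' L] [IsScalarTower F F' L]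
  [IsGalois F F'] [IsGalois F L]
  [DivisionRing D] [Algebra F' D] [FiniteDimensional F' D]
  [MulSemiringAction (F' ≃ₐ[F] F') D] {O : Subring D} {n : ℕ} {H : Set D} {N : ℕ}

theorem over_main {p : ℕ} [Fact p.Prime] [CharP k p] [IsAlgClosed k]
    (ρ : (L ≃ₐ[F] L) →* Matrix.GeneralLinearGroup (Fin 2) k)
    (hact : ∀ (σ : F' ≃ₐ[F] F') (a : F'), σ • algebraMap F' D a = algebraMap F' D (σ a))
    (hO : IsOrder F' O) (hOP : ∀ (σ : F' ≃ₐ[F] F'), ∀ a ∈ O, σ • a ∈ O)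
    (hn : n ≠ 0) (hH : IsLevel O n H) (hHP : ∀ (σ : F' ≃ₐ[F] F'), ∀ h ∈ H, σ • h ∈ H)
    (hsmall : ∀ y, IsPair F' O n H y → ∀ d : Dˣ, d • y = y → ∃ a : F', (d : D) = algebraMap F' D a)
    {r : ℕ} {e e' : Fin r → 𝓞 F'} {m : ℕ} (cas1 : ∑ i, e i * e' i = (m : 𝓞 F'))
    (cas : ∀ σ : F' ≃ₐ[F] F', σ ≠ 1 → ∑ i, e i * σ • e' i = 0)
    (hmN : m ∣ N) (hnN : n ∣ N)
    (hsplit : ∀ w : Ideal (𝓞 F'), w.IsMaximal → (N : 𝓞 F') ∉ w → Split F' O w)
    (hram : ∀ Q : Ideal (𝓞 L), Q.IsMaximal → (N : 𝓞 L) ∉ Q → ∀ τ : L ≃ₐ[F] L,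
        (∀ x : 𝓞 L, τ • x - x ∈ Q) → ρ τ = 1)
    (K : IntermediateField F F') (hK : IsPGroup p K.fixingSubgroup) :
    multOver ρ O n H N K =
      Module.finrank k (fixPart k Dˣ {y | IsPair F' O n H y}
        (K.fixingSubgroup : Set (F' ≃ₐ[F] F')) (eigenSpace F F' ρ O n H N)) ∧
    ((∃ f ∈ fixPart k Dˣ {y | IsPair F' O n H y} (K.fixingSubgroup : Set (F' ≃ₐ[F] F'))
        (eigenSpace F F' ρ O n H N), f ≠ 0) ↔ OccursOver ρ O n H N K) := by
  letI := actOver K D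
  have hPK : IsPGroup p (F' ≃ₐ[K] F') :=
    hK.of_equiv (IntermediateField.fixingSubgroupEquiv K)
  have htower : IsScalarTower F K L := inferInstance
  have hgal : IsGalois K L := IsGalois.tower_top_of_isGalois F K L
  have h := base_main (F := K) (F' := F') (L := L) (D := D) (O := O) (n := n) (H := H) (N := N)
    hPK (resRho ρ K)
    (fun σ a => hact (σ.restrictScalars F) a) hO (fun σ a ha => hOP (σ.restrictScalars F) a ha)
    hn hH (fun σ a ha => hHP (σ.restrictScalars F) a ha) hsmall cas1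
    (fun σ hσ => cas (σ.restrictScalars F) (fun h1 => hσ (by
      ext x
      exact congrArg (fun τ : F' ≃ₐ[F] F' => τ x) h1))) hmN hnN hsplit
    (fun Q hQ hNQ τ hτ => hram Q hQ hNQ (τ.restrictScalars F) hτ)
  have he : eigenSpace K F' (resRho ρ K) O n H N = eigenSpace F F' ρ O n H N := by
    unfold eigenSpace
    rw [eigenSet_over]
  rw [he, fixPart_over, multBase_over, occursBase_over] at h
  exact h

theorem isPermModule_of_equiv {k : Type*} [Field k] {X P : Type*} [Group P] [MulAction P X]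
    (E : Submodule k (X → k)) {Y : Type*} [MulAction P Y] (φ : E ≃ₗ[k] (Y → k))
    (hφ : ∀ (σ : P) (f f' : E), (∀ x, (f' : X → k) x = (f : X → k) (σ • x)) →
      ∀ y, φ f' y = φ f (σ • y))
    (hE : ∀ (σ : P), ∀ f ∈ E, (fun x => f (σ • x)) ∈ E) : IsPermModule (P := P) E Y := by
  obtain ⟨ψ, hψ⟩ := LinearMap.exists_extend (φ : E →ₗ[k] (Y → k))
  have hψ' : ∀ (f : X → k) (hf : f ∈ E), ψ f = φ ⟨f, hf⟩ := fun f hf =>
    LinearMap.congr_fun hψ ⟨f, hf⟩
  refine ⟨ψ, fun g => ?_, fun σ f hf => ⟨hE σ f hf, fun y => ?_⟩⟩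
  · refine ⟨(φ.symm g : E), ⟨(φ.symm g).2, ?_⟩, ?_⟩
    · show ψ ((φ.symm g : E) : X → k) = g
      rw [hψ' _ (φ.symm g).2]
      exact φ.apply_symm_apply g
    · rintro f ⟨hf, hfg⟩
      rw [hψ' f hf] at hfg
      rw [← hfg, LinearEquiv.symm_apply_apply]
  · rw [hψ' _ (hE σ f hf), hψ' f hf]
    exact hφ σ ⟨f, hf⟩ ⟨_, hE σ f hf⟩ (fun _ => rfl) y

theorem card_of_bijective {k : Type*} [Field k] {X : Type*} (E : Submodule k (X → k)) {Y : Type*}
    [Finite Y] (φ : (X → k) →ₗ[k] (Y → k)) (hφ : ∀ g : Y → k, ∃! f, f ∈ E ∧ φ f = g) :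
    Nat.card Y = Module.finrank k E := by
  have := Fintype.ofFinite Y
  have h1 : Function.Bijective (φ.domRestrict E) := by
    constructor
    · intro a b hab
      obtain ⟨f, -, hf⟩ := hφ (φ (a : X → k))
      have ha := hf a ⟨a.2, rfl⟩
      have hb := hf b ⟨b.2, hab.symm⟩
      exact Subtype.ext (ha.trans hb.symm)
    · intro g
      obtain ⟨f, ⟨hf, hfg⟩, -⟩ := hφ g
      exact ⟨⟨f, hf⟩, hfg⟩
  rw [(LinearEquiv.ofBijective (φ.domRestrict E) h1).finrank_eq,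
    Module.finrank_fintype_fun_eq_card, Nat.card_eq_fintype_card]

theorem table_main {p : ℕ} [Fact p.Prime] [CharP k p] [IsAlgClosed k]
    (ρ : (L ≃ₐ[F] L) →* Matrix.GeneralLinearGroup (Fin 2) k)
    (hact : ∀ (σ : F' ≃ₐ[F] F') (a : F'), σ • algebraMap F' D a = algebraMap F' D (σ a))
    (hO : IsOrder F' O) (hOP : ∀ (σ : F' ≃ₐ[F] F'), ∀ a ∈ O, σ • a ∈ O)
    (hn : n ≠ 0) (hH : IsLevel O n H) (hHP : ∀ (σ : F' ≃ₐ[F] F'), ∀ h ∈ H, σ • h ∈ H)
    (hsmall : ∀ y, IsPair F' O n H y → ∀ d : Dˣ, d • y = y →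
      ∃ a : F', (d : D) = algebraMap F' D a) :
    (∀ (K : IntermediateField F F') (B : Type u) [DivisionRing B] [Algebra K B]
      (y : AddSubgroup D × Set D) (γ : (F' ≃ₐ[F] F') → Dˣ) (ι : B →+* D),
      IsTwistedFormOver K O n H y γ ι →
        Nonempty ((F' ⊗[K] B) ≃ₐ[F'] D) ∧ IsOrder K (OB ι y.1) ∧
        IsLevel (OB ι y.1) n (HB ι y) ∧
        (NumberField.IsTotallyReal F' → TotallyDefinite F' D → TotallyDefinite K B)) ∧
    ∃ N₀ : ℕ, N₀ ≠ 0 ∧ ∀ N : ℕ, N ≠ 0 → N₀ ∣ N → n ∣ N →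
      (∀ w : Ideal (𝓞 F'), w.IsMaximal → (N : 𝓞 F') ∉ w → Split F' O w) →
      (∀ Q : Ideal (𝓞 L), Q.IsMaximal → (N : 𝓞 L) ∉ Q → ∀ τ : L ≃ₐ[F] L,
        (∀ x : 𝓞 L, τ • x - x ∈ Q) → ρ τ = 1) →
      (∀ (K : IntermediateField F F') (B : Type u) [DivisionRing B] [Algebra K B]
        (y : AddSubgroup D × Set D) (γ : (F' ≃ₐ[F] F') → Dˣ) (ι : B →+* D),
        IsTwistedFormOver K O n H y γ ι →
          ∀ v : Ideal (𝓞 K), v.IsMaximal → (N : 𝓞 K) ∉ v → Split K (OB ι y.1) v) ∧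
      (∀ b : ℕ, ¬ p ^ (b + 1) ∣ Module.finrank k (eigenSpace F F' ρ O n H N) →
        ∃ K : IntermediateField F F', IsPGroup p K.fixingSubgroup ∧
          ¬ p ^ (b + 1) ∣ Module.finrank F K ∧ OccursOver ρ O n H N K) ∧
      (∀ K : IntermediateField F F', IsPGroup p K.fixingSubgroup →
        (multOver ρ O n H N K ≠ 0 ↔ OccursOver ρ O n H N K)) ∧
      (∀ P : Subgroup (F' ≃ₐ[F] F'), IsPGroup p P →
        ∃ (Y : Type) (_ : Finite Y) (_ : MulAction P Y),
          IsPermModule (P := P) (eigenSpace F F' ρ O n H N) Y ∧ HasMarks ρ O n H N P Y) := by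
  classical
  refine ⟨fun K B _ _ y γ ι h => over_props hact hO hOP hn hH hHP hsmall K h, ?_⟩
  obtain ⟨r, e, e', m, hm, cas1, cas⟩ := exists_casimir (F := F) (F' := F')
  refine ⟨m, hm, fun N hN hmN hnN hsplit hram => ?_⟩
  have hover := fun (K : IntermediateField F F') (hK : IsPGroup p K.fixingSubgroup) =>
    over_main (N := N) ρ hact hO hOP hn hH hHP hsmall cas1 cas hmN hnN hsplit hram K hK
  -- the system of eigenvalues over `F'`
  let Θ : Ideal (𝓞 F') → k := fun w =>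
    if h : ∃ (φ : L ≃ₐ[F'] L) (Q : Ideal (𝓞 L)), IsFrob F' φ Q w then
      Matrix.trace (ρ (h.choose.restrictScalars F) : Matrix (Fin 2) (Fin 2) k) else 0
  have hΘeq : ∀ (w : Ideal (𝓞 F')), (N : 𝓞 F') ∉ w → ∀ (φ : L ≃ₐ[F'] L) (Q : Ideal (𝓞 L)),
      IsFrob F' φ Q w →
      Θ w = Matrix.trace (ρ (φ.restrictScalars F) : Matrix (Fin 2) (Fin 2) k) := by
    intro w hw φ Q hφ
    have h : ∃ (φ : L ≃ₐ[F'] L) (Q : Ideal (𝓞 L)), IsFrob F' φ Q w := ⟨φ, Q, hφ⟩
    have h1 : Θ w = Matrix.trace (ρ (h.choose.restrictScalars F) : Matrix (Fin 2) (Fin 2) k) :=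
      dif_pos h
    rw [h1]
    exact frob_trace_unique' ρ hram hw h.choose_spec.choose_spec hφ
  have hΘinv : ∀ (σ : F' ≃ₐ[F] F') (w : Ideal (𝓞 F')), w.IsMaximal → (N : 𝓞 F') ∉ w →
      Θ (σ • w) = Θ w := by
    intro σ w hw hNw
    obtain ⟨φ, Q, hφ⟩ := exists_frob' F (L := L) hw
    obtain ⟨φ', Q', hφ', htr⟩ := frob_equivariant ρ σ hφ
    rw [hΘeq w hNw φ Q hφ, hΘeq (σ • w) (idx_smul σ ⟨hw, hNw⟩).2 φ' Q' hφ', htr]
  have hset : eigenSet F F' ρ O n H N = thetaSet F' O n H N Θ := by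
    ext f
    constructor
    · rintro ⟨h1, h2⟩
      refine ⟨h1, fun w hw hNw => ?_⟩
      obtain ⟨φ, Q, hφ⟩ := exists_frob' F (L := L) hw
      rw [hΘeq w hNw φ Q hφ]
      exact h2 w hw hNw φ Q hφ
    · rintro ⟨h1, h2⟩
      refine ⟨h1, fun w hw hNw φ Q hφ => ?_⟩
      have h3 := h2 w hw hNw
      rw [hΘeq w hNw φ Q hφ] at h3
      exact h3
  have hspan : eigenSpace F F' ρ O n H N = Submodule.span k
      (absEigen Dˣ {y | IsPair F' O n H y} (heckeFam k hO n H N) (fun i => Θ i.1)) := by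
    unfold eigenSpace
    rw [hset, thetaSet_eq k hO]
  have hsub := absEigen_submodule (G := Dˣ) {y | IsPair F' O n H y}
    (finite_classes hO hn hH) (heckeFam k hO n H N) (fun i => Θ i.1)
  have hfd : FiniteDimensional k (eigenSpace F F' ρ O n H N) := by
    rw [hspan]
    exact hsub.2
  have hiff : ∀ K : IntermediateField F F', IsPGroup p K.fixingSubgroup →
      (multOver ρ O n H N K ≠ 0 ↔ OccursOver ρ O n H N K) := by
    intro K hK
    obtain ⟨h1, h2⟩ := hover K hK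
    rw [h1, ← h2]
    have hfd2 : FiniteDimensional k (fixPart k Dˣ {y | IsPair F' O n H y}
        (K.fixingSubgroup : Set (F' ≃ₐ[F] F')) (eigenSpace F F' ρ O n H N)) := by
      have : FiniteDimensional k ↥(eigenSpace F F' ρ O n H N ⊓
          invSub k (K.fixingSubgroup : Set (F' ≃ₐ[F] F'))) :=
        Submodule.finiteDimensional_inf_left _ _
      unfold fixPart
      infer_instance
    constructor
    · intro h3
      by_contra hcon
      push Not at hcon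
      apply h3
      have h4 : fixPart k Dˣ {y | IsPair F' O n H y} (K.fixingSubgroup : Set (F' ≃ₐ[F] F'))
          (eigenSpace F F' ρ O n H N) = ⊥ := by
        rw [Submodule.eq_bot_iff]
        exact hcon
      rw [h4, finrank_bot]
    · rintro ⟨f, hf, hf0⟩ h3
      have h4 := Submodule.finrank_eq_zero.1 h3
      rw [h4, Submodule.mem_bot] at hf
      exact hf0 hf
  have hpset : ∀ P : Subgroup (F' ≃ₐ[F] F'), IsPGroup p P →
        ∃ (Y : Type) (_ : Finite Y) (_ : MulAction P Y),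
          IsPermModule (P := P) (eigenSpace F F' ρ O n H N) Y ∧ HasMarks ρ O n H N P Y := by
    intro P hP
    obtain ⟨Y, hfY, hactY, φ, hφ, -, hfixY⟩ := exists_pset (P := P) (G := Dˣ) hP
      {y | IsPair F' O n H y} (fun g x => isPair_units_smul g)
      (fun σ x => isPair_gal_smul (hact_smul hact) hOP hHP (σ : F' ≃ₐ[F] F'))
      (fun σ g => ⟨_, fun x => gal_units_smul_pair (σ : F' ≃ₐ[F] F') g x⟩)
      (finite_classes hO hn hH)
      (heckeFam k hO n H N) (fun i => Θ i.1)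
      (fun i f hf => IsForm.hecke i.1 hf)
      (fun i j f => hecke_comm hO hH i.2.1 j.2.1 (notMem_of_dvd hnN i.2.2)
        (notMem_of_dvd hnN j.2.2) f)
      (fun σ i => heckeFam_gal hact hO hOP hHP (σ : F' ≃ₐ[F] F') i
        (hΘinv _ i.1 i.2.1 i.2.2))
    refine ⟨Y, hfY, hactY, ?_, fun K hK => ?_⟩
    · rw [hspan]
      refine isPermModule_of_equiv _ φ hφ ?_
      intro σ f hf
      obtain ⟨E₀, hE₀1, hE₀2, hE₀3⟩ := exists_equivariant (G := Dˣ) (P := P)
        (Y := {y | IsPair F' O n H y})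
        (fun σ x => isPair_gal_smul (hact_smul hact) hOP hHP (σ : F' ≃ₐ[F] F'))
        (fun σ g => ⟨_, fun x => gal_units_smul_pair (σ : F' ≃ₐ[F] F') g x⟩)
        (finite_classes hO hn hH)
        (heckeFam k hO n H N) (fun i => Θ i.1)
        (fun i f hf => IsForm.hecke i.1 hf)
        (fun i j f => hecke_comm hO hH i.2.1 j.2.1 (notMem_of_dvd hnN i.2.2)
          (notMem_of_dvd hnN j.2.2) f)
        (fun σ i => heckeFam_gal hact hO hOP hHP (σ : F' ≃ₐ[F] F') i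
          (hΘinv _ i.1 i.2.1 i.2.2))
      have hf1 := hsub.1 f hf
      have hf2 : absForm Dˣ {y | IsPair F' O n H y} (fun x => f (σ • x)) := by
        refine ⟨fun x hx => hf1.1.1 _ fun h => hx ?_, fun g x => ?_⟩
        · exact (isPair_gal_smul (hact_smul hact) hOP hHP (σ : F' ≃ₐ[F] F')).1 h
        · have h7 := gal_units_smul_pair (σ : F' ≃ₐ[F] F') g x
          show f ((σ : F' ≃ₐ[F] F') • g • x) = f ((σ : F' ≃ₐ[F] F') • x)
          rw [h7]
          exact hf1.1.2 _ _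
      have h8 : E₀ ⟨f, hf1.1⟩ = ⟨f, hf1.1⟩ := (hE₀2 _).2 hf1
      have h9 : E₀ ⟨_, hf2⟩ = ⟨_, hf2⟩ := by
        apply Subtype.ext
        funext x
        rw [hE₀3 σ ⟨f, hf1.1⟩ ⟨_, hf2⟩ (fun _ => rfl) x, h8]
      exact Submodule.subset_span ((hE₀2 _).1 h9)
    have hKp : IsPGroup p K.fixingSubgroup := hP.to_le hK
    rw [(hover K hKp).1, hspan]
    have h5 := hfixY (K.fixingSubgroup.subgroupOf P)
    have h6 : fixPart k Dˣ {y | IsPair F' O n H y}
        ((K.fixingSubgroup.subgroupOf P : Subgroup P) : Set P)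
        (Submodule.span k (absEigen Dˣ {y | IsPair F' O n H y} (heckeFam k hO n H N)
          (fun i => Θ i.1))) =
        fixPart k Dˣ {y | IsPair F' O n H y} (K.fixingSubgroup : Set (F' ≃ₐ[F] F'))
        (Submodule.span k (absEigen Dˣ {y | IsPair F' O n H y} (heckeFam k hO n H N)
          (fun i => Θ i.1))) := by
      apply fixPart_congr
      · intro σ hσ
        exact ⟨(σ : F' ≃ₐ[F] F'), hσ, fun x => rfl⟩
      · intro τ hτ
        exact ⟨⟨τ, hK hτ⟩, hτ, fun x => rfl⟩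
    rw [← h6, ← h5]
    rfl
  refine ⟨fun K B _ _ y γ ι h v hv hNv => over_split hact hO hOP hn hH hHP hsmall cas1 cas hmN
    hsplit K h v hv hNv, fun b hb => ?_, hiff, hpset⟩
  refine exists_field_of_not_dvd (OccursOver ρ O n H N) (multOver ρ O n H N)
    (Module.finrank k (eigenSpace F F' ρ O n H N)) (fun K hK h => (hiff K hK).1 h) ?_ b hb
  intro P hP
  obtain ⟨Y, hfY, hactY, ⟨φ, hφ, -⟩, hY⟩ := hpset P hP
  exact ⟨Y, hfY, hactY, card_of_bijective _ φ hφ, hY⟩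

end Pool.Agent.Helper93.WT
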