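import Mathlib

/-!
# Direct summands of permutation modules of p-groups are permutation modules
-/

namespace Pool.Agent.Helper93.WT

universe u v

/-- A nonzero stable subspace of a function space contains a nonzero invariant vector. -/
private theorem exists_fixed {p : ℕ} [Fact p.Prime] {k : Type*} [Field k] [CharP k p] {P : Type*}
    [Group P] [Finite P] (hP : IsPGroup p P) {O : Type*} [MulAction P O]
    (W : Submodule k (O → k)) (hW : ∀ (σ : P), ∀ f ∈ W, (fun x => f (σ • x)) ∈ W)
    (hne : W ≠ ⊥) : ∃ f ∈ W, f ≠ 0 ∧ ∀ (σ : P) (x : O), f (σ • x) = f x := by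
  obtain ⟨w, hwW, hw0⟩ := Submodule.exists_mem_ne_zero_of_ne_bot hne
  let : Algebra (ZMod p) k := ZMod.algebra k p
  let A : Submodule (ZMod p) (O → k) :=
    Submodule.span (ZMod p) (Set.range (fun σ : P => (fun x => w (σ • x))))
  have hAfin : Module.Finite (ZMod p) A :=
    FiniteDimensional.span_of_finite (ZMod p) (Set.finite_range _)
  have hA : Finite A := Module.finite_of_finite (ZMod p)
  have hAW : ∀ f ∈ A, f ∈ W := by
    intro f hf
    induction hf using Submodule.span_induction with
    | mem f hf => obtain ⟨σ, rfl⟩ := hf; exact hW σ w hwW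
    | zero => exact W.zero_mem
    | add f g _ _ hf hg => exact W.add_mem hf hg
    | smul c f _ hf =>
      have : c • f = (algebraMap (ZMod p) k c) • f := by
        ext x
        simp [Algebra.smul_def]
      rw [this]
      exact W.smul_mem _ hf
  have hAP : ∀ (τ : P), ∀ f ∈ A, (fun x => f (τ • x)) ∈ A := by
    intro τ f hf
    induction hf using Submodule.span_induction with
    | mem f hf =>
      obtain ⟨σ, rfl⟩ := hf
      refine Submodule.subset_span ⟨σ * τ, ?_⟩
      ext x
      simp [mul_smul]
    | zero => exact A.zero_mem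
    | add f g _ _ hf hg => exact A.add_mem hf hg
    | smul c f _ hf => exact A.smul_mem c hf
  let : MulAction P A :=
    { smul := fun σ f => ⟨fun x => (f : O → k) (σ⁻¹ • x), hAP σ⁻¹ f f.2⟩
      one_smul := by
        intro f
        apply Subtype.ext
        funext x
        change (f : O → k) ((1 : P)⁻¹ • x) = (f : O → k) x
        simp
      mul_smul := by
        intro σ τ f
        apply Subtype.ext
        funext x
        change (f : O → k) ((σ * τ)⁻¹ • x) = (f : O → k) (τ⁻¹ • σ⁻¹ • x)
        rw [mul_inv_rev, mul_smul] }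
  have hsm : ∀ (σ : P) (f : A) (x : O), ((σ • f : A) : O → k) x = (f : O → k) (σ⁻¹ • x) :=
    fun σ f x => rfl
  have hwA : w ∈ A := Submodule.subset_span ⟨1, by ext x; simp⟩
  have hnt : Nontrivial A := ⟨⟨⟨w, hwA⟩, 0, fun h => hw0 (congrArg Subtype.val h)⟩⟩
  have hcard : p ∣ Nat.card A := by
    have h1 : Nat.card A = Nat.card (ZMod p) ^ Module.finrank (ZMod p) A :=
      Module.natCard_eq_pow_finrank
    rw [h1, Nat.card_zmod]
    exact dvd_pow_self p (Module.finrank_pos (R := ZMod p) (M := A)).ne'
  have h0 : (0 : A) ∈ MulAction.fixedPoints P A := by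
    intro σ
    apply Subtype.ext
    funext x
    rfl
  obtain ⟨b, hb, hb0⟩ := hP.exists_fixed_point_of_prime_dvd_card_of_fixed_point A hcard h0
  refine ⟨b, hAW b b.2, fun h => hb0 (Subtype.ext h.symm), fun σ x => ?_⟩
  have h1 := hb σ⁻¹
  have h2 := congrArg (fun f : A => (f : O → k) x) h1
  simp only [hsm, inv_inv] at h2
  exact h2

private theorem inj_or {p : ℕ} [Fact p.Prime] {k : Type*} [Field k] [CharP k p] {P : Type*}
    [Group P] [Finite P] (hP : IsPGroup p P) {O : Type*} [MulAction P O] [Nonempty O]
    (htr : ∀ x y : O, ∃ σ : P, σ • x = y) (a b : (O → k) →ₗ[k] (O → k))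
    (hab : ∀ f, a f + b f = f)
    (ha : ∀ (σ : P) (f : O → k) (x : O), a (fun x => f (σ • x)) x = a f (σ • x))
    (hb : ∀ (σ : P) (f : O → k) (x : O), b (fun x => f (σ • x)) x = b f (σ • x)) :
    Function.Injective a ∨ Function.Injective b := by
  have key : ∀ c : (O → k) →ₗ[k] (O → k),
      (∀ (σ : P) (f : O → k) (x : O), c (fun x => f (σ • x)) x = c f (σ • x)) →
      ¬ Function.Injective c → c (fun _ => 1) = 0 := by
    intro c hc hinj
    have hker : LinearMap.ker c ≠ ⊥ := fun h => hinj (LinearMap.ker_eq_bot.1 h)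
    obtain ⟨f, hf, hf0, hfix⟩ := exists_fixed hP (LinearMap.ker c) (fun σ f hf => by
      rw [LinearMap.mem_ker] at hf ⊢
      funext x
      rw [hc, hf]
      rfl) hker
    obtain ⟨x0⟩ := ‹Nonempty O›
    have hconst : ∀ x, f x = f x0 := by
      intro x
      obtain ⟨σ, rfl⟩ := htr x0 x
      exact hfix σ x0
    have hx0 : f x0 ≠ 0 := by
      intro h
      apply hf0
      funext x
      rw [hconst x, h]
      rfl
    have h1 : (fun _ : O => (1 : k)) = (f x0)⁻¹ • f := by
      funext x
      rw [Pi.smul_apply, hconst x, smul_eq_mul, inv_mul_cancel₀ hx0]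
    rw [h1, map_smul, LinearMap.mem_ker.1 hf, smul_zero]
  by_contra hcon
  rw [not_or] at hcon
  have h1 := key a ha hcon.1
  have h2 := key b hb hcon.2
  have h3 := hab (fun _ => 1)
  rw [h1, h2, add_zero] at h3
  obtain ⟨x0⟩ := ‹Nonempty O›
  have h4 := congrFun h3 x0
  simp at h4

/-- The induced action on a stable subset. -/
@[instance_reducible] private def subAct {P : Type*} [Group P] {Ω : Type*} [MulAction P Ω] (q : Ω → Prop)
    (hq : ∀ (σ : P) (x : Ω), q x → q (σ • x)) : MulAction P {x // q x} where
  smul σ x := ⟨σ • x.1, hq σ x.1 x.2⟩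
  one_smul x := Subtype.ext (one_smul P x.1)
  mul_smul σ τ x := Subtype.ext (mul_smul σ τ x.1)

open Classical in
/-- Extension by zero. -/
private noncomputable def ext0 {k : Type*} [Field k] {Ω : Type*} (q : Ω → Prop) :
    ({x // q x} → k) →ₗ[k] (Ω → k) where
  toFun f := fun x => if h : q x then f ⟨x, h⟩ else 0
  map_add' f g := by
    funext x
    by_cases h : q x <;> simp [h]
  map_smul' c f := by
    funext x
    by_cases h : q x <;> simp [h]

private theorem ext0_pos {k : Type*} [Field k] {Ω : Type*} (q : Ω → Prop)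
    (f : {x // q x} → k) (x : Ω) (h : q x) : ext0 q f x = f ⟨x, h⟩ := by
  simp [ext0, h]

private theorem ext0_neg {k : Type*} [Field k] {Ω : Type*} (q : Ω → Prop)
    (f : {x // q x} → k) (x : Ω) (h : ¬ q x) : ext0 q f x = 0 := by
  simp [ext0, h]

/-- Restriction. -/
private def res0 {k : Type*} [Field k] {Ω : Type*} (q : Ω → Prop) :
    (Ω → k) →ₗ[k] ({x // q x} → k) :=
  LinearMap.funLeft k k Subtype.val

private theorem res0_apply {k : Type*} [Field k] {Ω : Type*} (q : Ω → Prop)
    (f : Ω → k) (x : {x // q x}) : res0 q f x = f x.1 := rfl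

private theorem main {p : ℕ} [Fact p.Prime] {k : Type*} [Field k] [CharP k p] {P : Type*}
    [Group P] [Finite P] (hP : IsPGroup p P) (n : ℕ) :
    ∀ (Ω : Type u) [Finite Ω] [MulAction P Ω] (V : Type v) [AddCommGroup V] [Module k V]
      (T : P → V →ₗ[k] V) (i : V →ₗ[k] (Ω → k)) (r : (Ω → k) →ₗ[k] V),
      (∀ v, r (i v) = v) → (∀ σ v x, i (T σ v) x = i v (σ • x)) →
      (∀ (σ : P) (f : Ω → k), r (fun x => f (σ • x)) = T σ (r f)) → Nat.card Ω ≤ n →
      ∃ (Z : Type u) (_ : Finite Z) (_ : MulAction P Z) (φ : V ≃ₗ[k] (Z → k)),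
        ∀ (σ : P) (v : V) (z : Z), φ (T σ v) z = φ v (σ • z) := by
  induction n with
  | zero =>
    intro Ω _ _ V _ _ T i r hri hi hr hcard
    have hempty : IsEmpty Ω := by
      rcases Nat.card_eq_zero.1 (Nat.le_zero.1 hcard) with h | h
      · exact h
      · exact absurd ‹Finite Ω› (not_finite_iff_infinite.2 h)
    refine ⟨Ω, inferInstance, inferInstance,
      LinearEquiv.ofLinearMap i r ?_ ?_, fun σ v z => (IsEmpty.false z).elim⟩
    · ext f x
      exact (IsEmpty.false x).elim
    · ext v
      exact hri v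
  | succ n ih =>
    intro Ω _ _ V _ _ T i r hri hi hr hcard
    rcases isEmpty_or_nonempty Ω with hempty | ⟨⟨x0⟩⟩
    · refine ⟨Ω, inferInstance, inferInstance,
        LinearEquiv.ofLinearMap i r ?_ ?_, fun σ v z => (IsEmpty.false z).elim⟩
      · ext f x
        exact (IsEmpty.false x).elim
      · ext v
        exact hri v
    let q : Ω → Prop := fun x => ∃ σ : P, σ • x0 = x
    let q' : Ω → Prop := fun x => ¬ q x
    have hq : ∀ (σ : P) (x : Ω), q x → q (σ • x) := by
      rintro σ x ⟨τ, rfl⟩
      exact ⟨σ * τ, mul_smul σ τ x0⟩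
    have hqi : ∀ (σ : P) (x : Ω), q (σ • x) ↔ q x := by
      intro σ x
      refine ⟨fun h => ?_, hq σ x⟩
      have := hq σ⁻¹ _ h
      rwa [inv_smul_smul] at this
    have hq' : ∀ (σ : P) (x : Ω), q' x → q' (σ • x) := fun σ x hx h => hx ((hqi σ x).1 h)
    have hqi' : ∀ (σ : P) (x : Ω), q' (σ • x) ↔ q' x := fun σ x => not_congr (hqi σ x)
    let : MulAction P {x // q x} := subAct q hq
    let : MulAction P {x // q' x} := subAct q' hq'
    have hsm : ∀ (σ : P) (x : {x // q x}), ((σ • x : {x // q x}) : Ω) = σ • x.1 := fun σ x => rfl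
    have hsm' : ∀ (σ : P) (x : {x // q' x}), ((σ • x : {x // q' x}) : Ω) = σ • x.1 :=
      fun σ x => rfl
    have hfin : Finite {x // q x} := inferInstance
    have hfin' : Finite {x // q' x} := inferInstance
    have hx0 : q x0 := ⟨1, one_smul P x0⟩
    have hne : Nonempty {x // q x} := ⟨⟨x0, hx0⟩⟩
    have htr : ∀ x y : {x // q x}, ∃ σ : P, σ • x = y := by
      rintro ⟨x, σ, rfl⟩ ⟨y, τ, rfl⟩
      refine ⟨τ * σ⁻¹, Subtype.ext ?_⟩
      change (τ * σ⁻¹) • σ • x0 = τ • x0
      rw [mul_smul, inv_smul_smul]
    have hcard' : Nat.card {x // q' x} ≤ n := by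
      have h1 : Nat.card {x // q' x} < Nat.card Ω := by
        refine Finite.card_subtype_lt (x := x0) ?_
        exact fun h => h hx0
      omega
    -- the translations
    have hext : ∀ (σ : P) (f : {x // q x} → k),
        ext0 q (fun x => f (σ • x)) = fun x => ext0 q f (σ • x) := by
      intro σ f
      funext x
      by_cases h : q x
      · rw [ext0_pos q _ x h, ext0_pos q f (σ • x) (hq σ x h)]
        rfl
      · rw [ext0_neg q _ x h, ext0_neg q f (σ • x) (fun h' => h ((hqi σ x).1 h'))]
    have hext' : ∀ (σ : P) (f : {x // q' x} → k),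
        ext0 q' (fun x => f (σ • x)) = fun x => ext0 q' f (σ • x) := by
      intro σ f
      funext x
      by_cases h : q' x
      · rw [ext0_pos q' _ x h, ext0_pos q' f (σ • x) (hq' σ x h)]
        rfl
      · rw [ext0_neg q' _ x h, ext0_neg q' f (σ • x) (fun h' => h ((hqi' σ x).1 h'))]
    have hre : ∀ f, res0 q (ext0 (k := k) q f) = f := by
      intro f
      funext x
      rw [res0_apply, ext0_pos q f x.1 x.2]
    have hextres : ∀ f : Ω → k, (∀ x, q x → f x = 0) → ext0 q' (res0 q' f) = f := by
      intro f hf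
      funext x
      by_cases h : q' x
      · rw [ext0_pos q' _ x h, res0_apply]
      · rw [ext0_neg q' _ x h, hf x (not_not.1 h)]
    -- the two maps
    let α : V →ₗ[k] ({x // q x} → k) := res0 q ∘ₗ i
    let β : ({x // q x} → k) →ₗ[k] V := r ∘ₗ ext0 q
    have hα : ∀ (σ : P) (v : V), α (T σ v) = fun x => α v (σ • x) := by
      intro σ v
      funext x
      exact hi σ v x.1
    have hβ : ∀ (σ : P) (f : {x // q x} → k), β (fun x => f (σ • x)) = T σ (β f) := by
      intro σ f
      change r (ext0 q fun x => f (σ • x)) = _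
      rw [hext, hr]
      rfl
    let a : ({x // q x} → k) →ₗ[k] ({x // q x} → k) := α ∘ₗ β
    let b : ({x // q x} → k) →ₗ[k] ({x // q x} → k) := LinearMap.id - a
    have ha : ∀ (σ : P) (f : {x // q x} → k), a (fun x => f (σ • x)) = fun x => a f (σ • x) := by
      intro σ f
      change α (β _) = _
      rw [hβ, hα]
      rfl
    have hb : ∀ (σ : P) (f : {x // q x} → k), b (fun x => f (σ • x)) = fun x => b f (σ • x) := by
      intro σ f
      change _ - a _ = _
      rw [ha]
      rfl
    have hinv : ∀ c : ({x // q x} → k) →ₗ[k] ({x // q x} → k),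
        (∀ (σ : P) (f : {x // q x} → k), c (fun x => f (σ • x)) = fun x => c f (σ • x)) →
        Function.Injective c → ∃ d : ({x // q x} → k) →ₗ[k] ({x // q x} → k),
        (∀ f, c (d f) = f) ∧ (∀ f, d (c f) = f) ∧
        (∀ (σ : P) (f : {x // q x} → k), d (fun x => f (σ • x)) = fun x => d f (σ • x)) := by
      intro c hc hcinj
      have hcsurj : Function.Surjective c := LinearMap.injective_iff_surjective.1 hcinj
      let e := LinearEquiv.ofBijective c ⟨hcinj, hcsurj⟩
      have he1 : ∀ f, c (e.symm f) = f := fun f => e.apply_symm_apply f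
      have he2 : ∀ f, e.symm (c f) = f := fun f => e.symm_apply_apply f
      refine ⟨e.symm.toLinearMap, he1, he2, fun σ f => ?_⟩
      apply hcinj
      change c (e.symm _) = _
      rw [he1, hc]
      change _ = fun x => c (e.symm f) (σ • x)
      rw [he1]
    rcases inj_or hP htr a b (fun f => add_sub_cancel (a f) f)
      (fun σ f x => congrFun (ha σ f) x) (fun σ f x => congrFun (hb σ f) x) with hinj | hinj
    · -- case 1
      obtain ⟨d, hd1, hd2, hd3⟩ := hinv a ha hinj
      -- the projection to the kernel of α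
      let π : V →ₗ[k] V := LinearMap.id - (β ∘ₗ d ∘ₗ α)
      have hπ : ∀ v, π v = v - β (d (α v)) := fun v => rfl
      have hαπ : ∀ v, α (π v) = 0 := by
        intro v
        rw [hπ, map_sub]
        change α v - a (d (α v)) = 0
        rw [hd1, sub_self]
      have hTπ : ∀ σ v, π (T σ v) = T σ (π v) := by
        intro σ v
        rw [hπ, hπ, map_sub, hα, hd3, hβ]
      let K : Submodule k V := LinearMap.ker α
      have hTK : ∀ σ, ∀ v ∈ K, T σ v ∈ K := by
        intro σ v hv
        rw [LinearMap.mem_ker] at hv ⊢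
        rw [hα, hv]
        rfl
      let T' : P → K →ₗ[k] K := fun σ => (T σ).restrict (hTK σ)
      have hT' : ∀ σ (v : K), ((T' σ v : K) : V) = T σ v := fun σ v => rfl
      let π' : V →ₗ[k] K := π.codRestrict K (fun v => LinearMap.mem_ker.2 (hαπ v))
      have hπ' : ∀ v, ((π' v : K) : V) = π v := fun v => rfl
      have hπK : ∀ v : K, π' v = v := by
        intro v
        apply Subtype.ext
        rw [hπ', hπ, LinearMap.mem_ker.1 v.2, map_zero, map_zero, sub_zero]
      let i' : K →ₗ[k] ({x // q' x} → k) := res0 q' ∘ₗ i ∘ₗ K.subtype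
      let r' : ({x // q' x} → k) →ₗ[k] K := π' ∘ₗ r ∘ₗ ext0 q'
      obtain ⟨Z, hZ, hPZ, φ, hφ⟩ := ih {x // q' x} K T' i' r'
        (by
          intro v
          change π' (r (ext0 q' (res0 q' (i v)))) = v
          rw [hextres, hri, hπK]
          intro x hx
          exact congrFun (LinearMap.mem_ker.1 v.2) ⟨x, hx⟩)
        (fun σ v x => hi σ v x.1)
        (by
          intro σ f
          apply Subtype.ext
          change π (r (ext0 q' fun x => f (σ • x))) = T σ (π (r (ext0 q' f)))
          rw [hext', hr, hTπ])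
        hcard'
      let Φ : V →ₗ[k] ({x // q x} ⊕ Z → k) :=
        { toFun := fun v => Sum.elim (α v) (φ (π' v))
          map_add' := by
            intro v w
            funext x
            rcases x with x | x <;> simp
          map_smul' := by
            intro c v
            funext x
            rcases x with x | x <;> simp }
      have hΦl : ∀ v x, Φ v (Sum.inl x) = α v x := fun v x => rfl
      have hΦr : ∀ v x, Φ v (Sum.inr x) = φ (π' v) x := fun v x => rfl
      have hΦ : Function.Bijective Φ := by
        constructor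
        · rw [injective_iff_map_eq_zero]
          intro v hv
          have h1 : α v = 0 := by
            funext x
            rw [← hΦl, hv]
            rfl
          have h2 : φ (π' v) = 0 := by
            funext x
            rw [← hΦr, hv]
            rfl
          have h3 : π' v = 0 := by
            rwa [LinearEquiv.map_eq_zero_iff] at h2
          have h4 : π v = 0 := by
            rw [← hπ', h3]
            rfl
          rw [hπ, h1, map_zero, map_zero, sub_zero] at h4
          exact h4
        · intro g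
          refine ⟨β (d (fun x => g (Sum.inl x))) + (φ.symm (fun x => g (Sum.inr x)) : K), ?_⟩
          have h1 : α (β (d (fun x => g (Sum.inl x))) + (φ.symm (fun x => g (Sum.inr x)) : K)) =
              fun x => g (Sum.inl x) := by
            rw [map_add, LinearMap.mem_ker.1 (φ.symm (fun x => g (Sum.inr x))).2, add_zero]
            exact hd1 _
          have h2 : π' (β (d (fun x => g (Sum.inl x))) + (φ.symm (fun x => g (Sum.inr x)) : K)) =
              φ.symm (fun x => g (Sum.inr x)) := by
            apply Subtype.ext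
            rw [hπ', hπ, h1, add_sub_cancel_left]
          funext x
          rcases x with x | x
          · rw [hΦl, h1]
          · rw [hΦr, h2, LinearEquiv.apply_symm_apply]
      let : MulAction P ({x // q x} ⊕ Z) :=
        { smul := fun σ x => Sum.map (σ • ·) (σ • ·) x
          one_smul := by
            rintro (x | x)
            · exact congrArg Sum.inl (one_smul P x)
            · exact congrArg Sum.inr (one_smul P x)
          mul_smul := by
            rintro σ τ (x | x)
            · exact congrArg Sum.inl (mul_smul σ τ x)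
            · exact congrArg Sum.inr (mul_smul σ τ x) }
      refine ⟨{x // q x} ⊕ Z, inferInstance, this, LinearEquiv.ofBijective Φ hΦ, ?_⟩
      intro σ v z
      rcases z with z | z
      · exact congrFun (hα σ v) z
      · change φ (π' (T σ v)) z = φ (π' v) (σ • z)
        have h1 : π' (T σ v) = T' σ (π' v) := Subtype.ext (hTπ σ v)
        rw [h1, hφ]
    · -- case 2
      obtain ⟨d, hd1, hd2, hd3⟩ := hinv b hb hinj
      -- the projection to the functions vanishing on the orbit
      let γ : ({x // q x} → k) →ₗ[k] (Ω → k) := ext0 q - (i ∘ₗ β)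
      have hγ : ∀ f, γ f = ext0 q f - i (β f) := fun f => rfl
      have hγb : ∀ f, res0 q (γ f) = b f := by
        intro f
        rw [hγ, map_sub, hre]
        rfl
      have hrγ : ∀ f, r (γ f) = 0 := by
        intro f
        rw [hγ, map_sub, hri]
        exact sub_self _
      have hγσ : ∀ (σ : P) (f : {x // q x} → k),
          γ (fun x => f (σ • x)) = fun x => γ f (σ • x) := by
        intro σ f
        rw [hγ, hext, hβ]
        funext x
        rw [Pi.sub_apply, hi]
        rfl
      let j : V →ₗ[k] (Ω → k) := i - (γ ∘ₗ d ∘ₗ α)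
      have hj : ∀ v, j v = i v - γ (d (α v)) := fun v => rfl
      have hjq : ∀ v, res0 q (j v) = 0 := by
        intro v
        rw [hj, map_sub, hγb, hd1]
        exact sub_self _
      have hjσ : ∀ (σ : P) (v : V) (x : Ω), j (T σ v) x = j v (σ • x) := by
        intro σ v x
        rw [hj, hα, hd3, hγσ, Pi.sub_apply, hi]
        rfl
      let i' : V →ₗ[k] ({x // q' x} → k) := res0 q' ∘ₗ j
      let r' : ({x // q' x} → k) →ₗ[k] V := r ∘ₗ ext0 q'
      exact ih {x // q' x} V T i' r'
        (by
          intro v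
          change r (ext0 q' (res0 q' (j v))) = v
          rw [hextres, hj, map_sub, hri, hrγ, sub_zero]
          intro x hx
          exact congrFun (hjq v) ⟨x, hx⟩)
        (fun σ v x => hjσ σ v x.1)
        (by
          intro σ f
          change r (ext0 q' fun x => f (σ • x)) = T σ (r (ext0 q' f))
          rw [hext', hr])
        hcard'

theorem perm_summand {p : ℕ} [Fact p.Prime] {k : Type*} [Field k] [CharP k p] {P : Type*}
    [Group P] [Finite P] (hP : IsPGroup p P) {Ω : Type*} [Finite Ω] [MulAction P Ω]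
    (M M' : Submodule k (Ω → k)) (hc : IsCompl M M')
    (hM : ∀ (σ : P), ∀ f ∈ M, (fun x => f (σ • x)) ∈ M)
    (hM' : ∀ (σ : P), ∀ f ∈ M', (fun x => f (σ • x)) ∈ M') :
    ∃ (Z : Type) (_ : Finite Z) (_ : MulAction P Z) (φ : M ≃ₗ[k] (Z → k)),
      ∀ (σ : P) (f f' : M), (∀ x, (f' : Ω → k) x = (f : Ω → k) (σ • x)) →
        ∀ z, φ f' z = φ f (σ • z) := by
  let R : P → (Ω → k) →ₗ[k] (Ω → k) := fun σ => LinearMap.funLeft k k (fun x => σ • x)
  have hR : ∀ σ f x, R σ f x = f (σ • x) := fun σ f x => rfl
  have hRM : ∀ σ, ∀ f ∈ M, R σ f ∈ M := hM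
  let T : P → M →ₗ[k] M := fun σ => (R σ).restrict (hRM σ)
  let r : (Ω → k) →ₗ[k] M := M.projectionOnto M' hc
  have hrM : ∀ f : M, r (f : Ω → k) = f := fun f => Submodule.projectionOnto_apply_left hc f
  have hrM' : ∀ f ∈ M', r f = 0 := fun f hf =>
    (Submodule.projectionOnto_apply_eq_zero_iff hc).2 hf
  obtain ⟨Z, hZ, hPZ, φ, hφ⟩ := main hP (Nat.card Ω) Ω M T M.subtype r hrM
    (fun σ f x => rfl)
    (by
      intro σ f
      obtain ⟨g, hg, h, hh, rfl⟩ : ∃ g ∈ M, ∃ h ∈ M', g + h = f :=
        Submodule.mem_sup.1 (hc.sup_eq_top ▸ Submodule.mem_top)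
      have h1 : (fun x => (g + h) (σ • x)) = R σ g + R σ h := rfl
      rw [h1, map_add, map_add, map_add, hrM' h hh, hrM' (R σ h) (hM' σ h hh), add_zero,
        map_zero, add_zero, hrM ⟨g, hg⟩]
      exact hrM ⟨R σ g, hM σ g hg⟩) le_rfl
  let e : Fin (Nat.card Z) ≃ Z := (Finite.equivFin Z).symm
  let : MulAction P (Fin (Nat.card Z)) := e.mulAction P
  have hsm : ∀ (σ : P) z, σ • z = e.symm (σ • e z) := fun σ z => rfl
  refine ⟨Fin (Nat.card Z), inferInstance, this, φ.trans (LinearEquiv.funCongrLeft k k e), ?_⟩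
  intro σ f f' hff z
  have h1 : f' = T σ f := by
    apply Subtype.ext
    funext x
    exact hff x
  subst h1
  change φ (T σ f) (e z) = φ f (e (σ • z))
  rw [hφ, hsm, Equiv.apply_symm_apply]

end Pool.Agent.Helper93.WT
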