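import Pool.Agent.Helper93.WT.Abs2
import Pool.Agent.Helper93.WT.Defs2
import Pool.Agent.Helper93.WS.Main4

/-!
# The Brauer quotient of the generalised eigenspace in terms of the twisted forms
-/

open scoped Pointwise NumberField

namespace Pool.Agent.Helper93.WT

open Pool.Agent.Helper93.WS

universe u

variable {k : Type*} [Field k] {F F' D : Type u} [Field F] [NumberField F] [Field F']
  [NumberField F'] [Algebra F F'] [IsGalois F F'] [DivisionRing D] [Algebra F' D]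
  [MulSemiringAction (F' ≃ₐ[F] F') D] {O : Subring D} {n : ℕ} {H : Set D} {N : ℕ}

private theorem fixRes_pos {k : Type*} [Field k] {X : Type*} {G : Type*} {P : Type*} [Group G]
    [Group P] [MulAction G X] [MulAction P X] {Y : Set X} {Q : Set P} {x : X}
    (hx : x ∈ Y ∧ ∀ σ ∈ Q, ∃ g : G, σ • x = g • x) (f : X → k) :
    fixRes k G Y Q f x = f x := if_pos hx

private theorem fixRes_neg {k : Type*} [Field k] {X : Type*} {G : Type*} {P : Type*} [Group G]
    [Group P] [MulAction G X] [MulAction P X] {Y : Set X} {Q : Set P} {x : X}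
    (hx : ¬ (x ∈ Y ∧ ∀ σ ∈ Q, ∃ g : G, σ • x = g • x)) (f : X → k) :
    fixRes k G Y Q f x = 0 := if_neg hx

private theorem mem_theta_of_span {k : Type*} [Field k] {K : Type*} [Field K] [NumberField K]
    {D : Type*} [DivisionRing D] [Algebra K D] [FiniteDimensional K D] {O : Subring D} {n : ℕ}
    {H : Set D} {N : ℕ} {Θ : Ideal (𝓞 K) → k} (hO : IsOrder K O) (hn : n ≠ 0)
    (hH : IsLevel O n H) {f : AddSubgroup D × Set D → k}
    (hf : f ∈ Submodule.span k (thetaSet K O n H N Θ)) : f ∈ thetaSet K O n H N Θ := by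
  rw [thetaSet_eq k hO] at hf ⊢
  exact (absEigen_submodule (G := Dˣ) {y | IsPair K O n H y} (finite_classes hO hn hH)
    (heckeFam k hO n H N) (fun i => Θ i.1)).1 f hf

private theorem pi_pow {k : Type*} [Field k] {R : Type*} {V : R → Type*}
    [∀ r, AddCommGroup (V r)] [∀ r, Module k (V r)] (T : ∀ r, Module.End k (V r)) (μ : k)
    (s : ℕ) : ∀ (z : ∀ r, V r) (r : R),
      (((LinearMap.pi (fun r => (T r) ∘ₗ (LinearMap.proj r : (∀ r, V r) →ₗ[k] V r)) :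
        Module.End k (∀ r, V r)) - algebraMap k (Module.End k (∀ r, V r)) μ) ^ s) z r =
      ((T r - algebraMap k (Module.End k (V r)) μ) ^ s) (z r) := by
  induction s with
  | zero => intro z r; rfl
  | succ s ih =>
    intro z r
    rw [pow_succ, pow_succ, Module.End.mul_apply, Module.End.mul_apply, ih]
    rfl

private theorem pi_nil {k : Type*} [Field k] {R : Type*} [Fintype R] {V : R → Type*}
    [∀ r, AddCommGroup (V r)] [∀ r, Module k (V r)] (T : ∀ r, Module.End k (V r)) (μ : k)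
    (z : ∀ r, V r)
    (h : ∀ r, ∃ s : ℕ, ((T r - algebraMap k (Module.End k (V r)) μ) ^ s) (z r) = 0) :
    ∃ s : ℕ, (((LinearMap.pi (fun r => (T r) ∘ₗ (LinearMap.proj r : (∀ r, V r) →ₗ[k] V r)) :
        Module.End k (∀ r, V r)) - algebraMap k (Module.End k (∀ r, V r)) μ) ^ s) z = 0 := by
  classical
  choose s hs using h
  refine ⟨Finset.univ.sup s, ?_⟩
  funext r
  rw [pi_pow]
  obtain ⟨q, hq⟩ := Nat.exists_eq_add_of_le (Finset.le_sup (f := s) (Finset.mem_univ r))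
  rw [hq, add_comm, pow_add, Module.End.mul_apply, hs, map_zero]
  rfl

theorem fixForm_of_mem {Θ : Ideal (𝓞 F') → k} (hO : IsOrder F' O) (hn : n ≠ 0)
    (hH : IsLevel O n H) [FiniteDimensional F' D] {f : AddSubgroup D × Set D → k}
    (hf : f ∈ fixPart k Dˣ {y | IsPair F' O n H y} (Set.univ : Set (F' ≃ₐ[F] F'))
      (Submodule.span k (thetaSet F' O n H N Θ))) :
    FixForm k Dˣ {y | IsPair F' O n H y} (Set.univ : Set (F' ≃ₐ[F] F')) f := by
  classical
  obtain ⟨h, ⟨hh, _⟩, rfl⟩ := hf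
  have hh2 := mem_theta_of_span hO hn hH hh
  refine ⟨fun y hy => ?_, fun g y => ?_⟩
  · by_contra hcon
    exact hy (if_neg hcon)
  · show fixRes k Dˣ {y | IsPair F' O n H y} (Set.univ : Set (F' ≃ₐ[F] F')) h (g • y) =
      fixRes k Dˣ {y | IsPair F' O n H y} (Set.univ : Set (F' ≃ₐ[F] F')) h y
    have hiff : (g • y ∈ {y | IsPair F' O n H y} ∧ ∀ σ ∈ (Set.univ : Set (F' ≃ₐ[F] F')),
          ∃ d : Dˣ, σ • g • y = d • g • y) ↔
        (y ∈ {y | IsPair F' O n H y} ∧ ∀ σ ∈ (Set.univ : Set (F' ≃ₐ[F] F')),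
          ∃ d : Dˣ, σ • y = d • y) := by
      refine and_congr (isPair_units_smul g) (forall_congr' fun σ => forall_congr' fun _ => ?_)
      constructor
      · rintro ⟨d, hd⟩
        refine ⟨(Units.map (MulSemiringAction.toRingHom (F' ≃ₐ[F] F') D σ : D →* D) g)⁻¹ *
          (d * g), ?_⟩
        rw [mul_smul, mul_smul, ← hd, gal_units_smul_pair, inv_smul_smul]
      · rintro ⟨d, hd⟩
        refine ⟨Units.map (MulSemiringAction.toRingHom (F' ≃ₐ[F] F') D σ : D →* D) g * d * g⁻¹,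
          ?_⟩
        rw [gal_units_smul_pair, hd, mul_smul, mul_smul, inv_smul_smul]
    by_cases hc : y ∈ {y | IsPair F' O n H y} ∧ ∀ σ ∈ (Set.univ : Set (F' ≃ₐ[F] F')),
          ∃ d : Dˣ, σ • y = d • y
    · rw [fixRes_pos hc, fixRes_pos (hiff.2 hc)]
      exact hh2.1.2 g y
    · rw [fixRes_neg hc, fixRes_neg (fun h' => hc (hiff.1 h'))]

private theorem prod_theta {Θ : Ideal (𝓞 F') → k} {c : Ideal (𝓞 F) → k}
    (hΘ : ∀ v : Ideal (𝓞 F), v.IsMaximal → (N : 𝓞 F) ∉ v → ∃ f₀ : ℕ,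
      f₀ * (overSet F' v).ncard = Nat.card (F' ≃ₐ[F] F') ∧ ∀ w ∈ overSet F' v, Θ w = c v ^ f₀)
    {v : Ideal (𝓞 F)} (hv : v.IsMaximal) (hNv : (N : 𝓞 F) ∉ v) :
    (∏ w ∈ (overSet_finite (F' := F') hv).toFinset, Θ w) = c v ^ Nat.card (F' ≃ₐ[F] F') := by
  obtain ⟨f₀, hf₀, hΘv⟩ := hΘ v hv hNv
  rw [Finset.prod_congr rfl (fun w hw => hΘv w ((Set.Finite.mem_toFinset _).1 hw)),
    Finset.prod_const, ← pow_mul, ← Set.ncard_eq_toFinset_card _ _, hf₀]

/-- Pull-backs of elements of the Brauer quotient are generalised eigenforms. -/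
theorem pull_of_mem {p : ℕ} [Fact p.Prime] [CharP k p] (hP : IsPGroup p (F' ≃ₐ[F] F'))
    (hact : ∀ (σ : F' ≃ₐ[F] F') (a : F'), σ • algebraMap F' D a = algebraMap F' D (σ a))
    (hO : IsOrder F' O) (hOP : ∀ (σ : F' ≃ₐ[F] F'), ∀ a ∈ O, σ • a ∈ O)
    (hn : n ≠ 0) (hH : IsLevel O n H) (hHP : ∀ (σ : F' ≃ₐ[F] F'), ∀ h ∈ H, σ • h ∈ H)
    (hsmall : ∀ y, IsPair F' O n H y → ∀ d : Dˣ, d • y = y → ∃ a : F', (d : D) = algebraMap F' D a)
    [FiniteDimensional F' D]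
    {r : ℕ} {e e' : Fin r → 𝓞 F'} {m : ℕ} (cas1 : ∑ i, e i * e' i = (m : 𝓞 F'))
    (cas : ∀ σ : F' ≃ₐ[F] F', σ ≠ 1 → ∑ i, e i * σ • e' i = 0)
    (hmN : m ∣ N) (hnN : n ∣ N)
    (hsplit : ∀ w : Ideal (𝓞 F'), w.IsMaximal → (N : 𝓞 F') ∉ w → Split F' O w)
    {Θ : Ideal (𝓞 F') → k} {c : Ideal (𝓞 F) → k}
    (hΘ : ∀ v : Ideal (𝓞 F), v.IsMaximal → (N : 𝓞 F) ∉ v → ∃ f₀ : ℕ,
      f₀ * (overSet F' v).ncard = Nat.card (F' ≃ₐ[F] F') ∧ ∀ w ∈ overSet F' v, Θ w = c v ^ f₀)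
    {f : AddSubgroup D × Set D → k}
    (hf : f ∈ fixPart k Dˣ {y | IsPair F' O n H y} (Set.univ : Set (F' ≃ₐ[F] F'))
      (Submodule.span k (thetaSet F' O n H N Θ)))
    {B : Type*} [DivisionRing B] [Algebra F B] {y : AddSubgroup D × Set D}
    {γ : (F' ≃ₐ[F] F') → Dˣ} {ι : B →+* D} (htw : IsTwistedForm O n H y γ ι)
    {v : Ideal (𝓞 F)} (hv : v.IsMaximal) (hNv : (N : 𝓞 F) ∉ v) :
    ∃ s : ℕ, (fun g => hecke F (OB ι y.1) n (HB ι y) v g -
      (c v ^ Nat.card (F' ≃ₐ[F] F')) • g)^[s] (pullB F (OB ι y.1) n (HB ι y) ι y f) = 0 := by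
  classical
  obtain ⟨h, ⟨hh, hhP⟩, rfl⟩ := hf
  have hhΘ := mem_theta_of_span hO hn hH hh
  have hhP' : ∀ (σ : F' ≃ₐ[F] F') x, h (σ • x) = h x := fun σ x => hhP σ (Set.mem_univ σ) x
  have hdat := htw.datum hact hO hOP hn hH hHP hsmall
  have hOB : IsOrder F (OB ι y.1) := hdat.isOrder
  have hHB : SubLevel ι n y (HB ι y) := hdat.subLevel_HB
  have hg : Good e e' m v := ⟨hv, cas1, cas, notMem_of_dvd hmN hNv⟩
  have hsplit' : ∀ w ∈ overSet F' v, Split F' O w := fun w hw =>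
    hsplit w hw.1 (over_notMem hNv hw)
  obtain ⟨s, hs⟩ := pull_nil hP hdat hHB hOB hg hnN hNv hsplit' hhΘ hhP'
  refine ⟨s, ?_⟩
  rw [prod_theta hΘ hv hNv] at hs
  have hpull : pullB F (OB ι y.1) n (HB ι y) ι y
      (fixRes k Dˣ {y | IsPair F' O n H y} (Set.univ : Set (F' ≃ₐ[F] F')) h) =
      pull k F n (HB ι y) y ι h := by
    funext b
    by_cases hb : IsPair F (OB ι y.1) n (HB ι y) b
    · rw [pull_pos hb]
      refine (if_pos hb).trans ?_
      have hfix : jmap ι n y b ∈ {y | IsPair F' O n H y} ∧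
          ∀ σ ∈ (Set.univ : Set (F' ≃ₐ[F] F')), ∃ d : Dˣ,
            σ • jmap ι n y b = d • jmap ι n y b :=
        ⟨hdat.isPair_jmap hHB hb, fun σ _ => ⟨γ σ, hdat.jmap_fixed b σ⟩⟩
      exact fixRes_pos hfix h
    · rw [pull_neg hb]
      exact if_neg hb
  rw [hpull]
  have h1 := iterate_eq_pow (heckeLin (k := k) hOB n (HB ι y) hv)
    (c v ^ Nat.card (F' ≃ₐ[F] F')) s (pull k F n (HB ι y) y ι h)
  exact h1.trans hs

/-- A function on the fixed classes whose pull-backs to all twisted forms are generalised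
eigenforms (for the Frobenius twist of the system of eigenvalues) lies in the Brauer quotient. -/
theorem mem_of_pull {p : ℕ} [Fact p.Prime] [CharP k p] [IsAlgClosed k]
    (hP : IsPGroup p (F' ≃ₐ[F] F'))
    (hact : ∀ (σ : F' ≃ₐ[F] F') (a : F'), σ • algebraMap F' D a = algebraMap F' D (σ a))
    (hO : IsOrder F' O) (hOP : ∀ (σ : F' ≃ₐ[F] F'), ∀ a ∈ O, σ • a ∈ O)
    (hn : n ≠ 0) (hH : IsLevel O n H) (hHP : ∀ (σ : F' ≃ₐ[F] F'), ∀ h ∈ H, σ • h ∈ H)
    (hsmall : ∀ y, IsPair F' O n H y → ∀ d : Dˣ, d • y = y → ∃ a : F', (d : D) = algebraMap F' D a)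
    [FiniteDimensional F' D]
    {r : ℕ} {e e' : Fin r → 𝓞 F'} {m : ℕ} (cas1 : ∑ i, e i * e' i = (m : 𝓞 F'))
    (cas : ∀ σ : F' ≃ₐ[F] F', σ ≠ 1 → ∑ i, e i * σ • e' i = 0)
    (hmN : m ∣ N) (hnN : n ∣ N)
    (hsplit : ∀ w : Ideal (𝓞 F'), w.IsMaximal → (N : 𝓞 F') ∉ w → Split F' O w)
    {Θ : Ideal (𝓞 F') → k} {c : Ideal (𝓞 F) → k}
    (hΘ : ∀ v : Ideal (𝓞 F), v.IsMaximal → (N : 𝓞 F) ∉ v → ∃ f₀ : ℕ,
      f₀ * (overSet F' v).ncard = Nat.card (F' ≃ₐ[F] F') ∧ ∀ w ∈ overSet F' v, Θ w = c v ^ f₀)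
    {f : AddSubgroup D × Set D → k}
    (hf : FixForm k Dˣ {y | IsPair F' O n H y} (Set.univ : Set (F' ≃ₐ[F] F')) f)
    (hfeig : ∀ (B : Type u) [DivisionRing B] [Algebra F B] (y : AddSubgroup D × Set D)
      (γ : (F' ≃ₐ[F] F') → Dˣ) (ι : B →+* D), IsTwistedForm O n H y γ ι →
      ∀ v : Ideal (𝓞 F), v.IsMaximal → (N : 𝓞 F) ∉ v →
      ∃ s : ℕ, (fun g => hecke F (OB ι y.1) n (HB ι y) v g -
        (c v ^ Nat.card (F' ≃ₐ[F] F')) • g)^[s] (pullB F (OB ι y.1) n (HB ι y) ι y f) = 0) :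
    f ∈ fixPart k Dˣ {y | IsPair F' O n H y} (Set.univ : Set (F' ≃ₐ[F] F'))
      (Submodule.span k (thetaSet F' O n H N Θ)) := by
  classical
  -- invariance of `f`
  have hfP : ∀ (σ : F' ≃ₐ[F] F') x, f (σ • x) = f x := by
    intro σ x
    by_cases hx : f x = 0
    · by_contra hne
      rw [hx] at hne
      obtain ⟨_, h2⟩ := hf.1 _ hne
      obtain ⟨g, hg⟩ := h2 σ⁻¹ (Set.mem_univ _)
      rw [inv_smul_smul] at hg
      apply hne
      rw [← hf.2 g, ← hg, hx]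
    · obtain ⟨_, h2⟩ := hf.1 _ hx
      obtain ⟨g, hg⟩ := h2 σ (Set.mem_univ _)
      rw [hg, hf.2]
  have hfform : absForm Dˣ {y | IsPair F' O n H y} f := by
    refine ⟨fun x hx => ?_, hf.2⟩
    by_contra hne
    exact hx (hf.1 x hne).1
  -- representatives of the fixed classes
  obtain ⟨R₀, hR₀⟩ := finite_classes hO hn hH
  let R := R₀.filter (fun y => IsPair F' O n H y ∧
    ∀ σ : F' ≃ₐ[F] F', ∃ d : Dˣ, σ • y = d • y)
  have hRmem : ∀ y : R, IsPair F' O n H y.1 ∧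
      ∀ σ : F' ≃ₐ[F] F', ∃ d : Dˣ, σ • y.1 = d • y.1 :=
    fun y => (Finset.mem_filter.1 y.2).2
  have hR : ∀ x, IsPair F' O n H x → (∀ σ : F' ≃ₐ[F] F', ∃ d : Dˣ, σ • x = d • x) →
      ∃ (d : Dˣ) (y : R), x = d • y.1 := by
    intro x hx hfix
    obtain ⟨d, y, hy, rfl⟩ := hR₀ x hx
    refine ⟨d, ⟨y, Finset.mem_filter.2 ⟨hy, (isPair_units_smul d).1 hx, fun σ => ?_⟩⟩, rfl⟩
    obtain ⟨g, hg⟩ := hfix σ
    refine ⟨(Units.map (MulSemiringAction.toRingHom (F' ≃ₐ[F] F') D σ : D →* D) d)⁻¹ *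
      (g * d), ?_⟩
    rw [mul_smul, mul_smul, ← hg, gal_units_smul_pair, inv_smul_smul]
  choose γ hdat using fun y : R => exists_datum hact hO hOP hn hH hHP hsmall (hRmem y).1
    (hRmem y).2
  let alg : ∀ y : R, Algebra F (twFix (γ y)) := fun y => algFix hact (γ y)
  have hdat' : ∀ y : R, Datum O n H y.1 (γ y) (twFix (γ y)).subtype := hdat
  have hOB : ∀ y : R, IsOrder F (OB (twFix (γ y)).subtype y.1.1) := fun y => (hdat' y).isOrder
  have hHB : ∀ y : R, SubLevel (twFix (γ y)).subtype n y.1 (HB (twFix (γ y)).subtype y.1) :=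
    fun y => (hdat' y).subLevel_HB
  have hgood : ∀ v : Ideal (𝓞 F), v.IsMaximal → (N : 𝓞 F) ∉ v → Good e e' m v :=
    fun v hv hv' => ⟨hv, cas1, cas, notMem_of_dvd hmN hv'⟩
  have hsplit' : ∀ v : Ideal (𝓞 F), (N : 𝓞 F) ∉ v →
      ∀ w ∈ overSet F' v, Split F' O w := fun v hv' w hw =>
    hsplit w hw.1 (over_notMem hv' hw)
  letI := idxAction F F' N
  have hsmul : ∀ (σ : F' ≃ₐ[F] F') (i : IdxN F' N), (σ • i).1 = σ • i.1 := fun σ i => rfl
  let W : IdxN F N → Finset (IdxN F' N) := fun j =>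
    ((overSet_finite (F' := F') j.2.1).toFinset).subtype _
  have hWprod : ∀ (j : IdxN F N) (Ψ : Ideal (𝓞 F') → k),
      ∏ i ∈ W j, Ψ i.1 = ∏ w ∈ (overSet_finite (F' := F') j.2.1).toFinset, Ψ w := by
    intro j Ψ
    refine Finset.prod_subtype_of_mem _ ?_
    intro w hw
    have hw' : w ∈ overSet F' j.1 := (Set.Finite.mem_toFinset _).1 hw
    exact ⟨hw'.1, over_notMem j.2.2 hw'⟩
  let V : R → Type _ := fun y => AddSubgroup (twFix (γ y)) × Set (twFix (γ y)) → k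
  let π : (AddSubgroup D × Set D → k) →ₗ[k] (∀ y : R, V y) :=
    LinearMap.pi (fun y => pull k F n (HB (twFix (γ y)).subtype y.1) y.1 (twFix (γ y)).subtype)
  have hπapp : ∀ (g : AddSubgroup D × Set D → k) (y : R),
      π g y = pull k F n (HB (twFix (γ y)).subtype y.1) y.1 (twFix (γ y)).subtype g :=
    fun _ _ => rfl
  let T : IdxN F N → ∀ y : R, Module.End k (V y) := fun j y =>
    heckeFam k (hOB y) n (HB (twFix (γ y)).subtype y.1) N j
  let S : IdxN F N → Module.End k (∀ y : R, V y) := fun j =>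
    LinearMap.pi (fun y => (T j y) ∘ₗ (LinearMap.proj y : (∀ y : R, V y) →ₗ[k] V y))
  obtain ⟨h, hh, hhP, hhπ⟩ := abs_converse2 (G := Dˣ) hP {y | IsPair F' O n H y}
    (fun g x => isPair_units_smul g)
    (fun σ x => isPair_gal_smul (hact_smul hact) hOP hHP σ)
    (fun σ g => ⟨_, fun x => gal_units_smul_pair σ g x⟩)
    (finite_classes hO hn hH)
    (heckeFam k hO n H N)
    (fun i f hf => IsForm.hecke i.1 hf)
    (fun i j f => hecke_comm hO hH i.2.1 j.2.1 (notMem_of_dvd hnN i.2.2)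
      (notMem_of_dvd hnN j.2.2) f)
    (fun σ i f x => hecke_gal_smul (hact_smul hact) hOP hHP σ i.1 f x)
    π
    (by
      intro g hg hgP hg0
      funext y
      rw [hπapp]
      funext b
      by_cases hb : IsPair F (OB (twFix (γ y)).subtype y.1.1) n
          (HB (twFix (γ y)).subtype y.1) b
      · rw [pull_pos hb]
        exact hg0 _ ((hdat' y).isPair_jmap (hHB y) hb)
          (fun σ => ⟨γ y σ, (hdat' y).jmap_fixed b σ⟩)
      · exact pull_neg hb g)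
    S
    (by
      intro i j
      apply LinearMap.ext
      intro z
      funext y
      exact hecke_comm (hOB y) (hHB y).lev i.2.1 j.2.1 (notMem_of_dvd hnN i.2.2)
        (notMem_of_dvd hnN j.2.2) (z y))
    W (fun j => c j.1 ^ Nat.card (F' ≃ₐ[F] F'))
    (by
      intro j χ g hg hgP
      let Ψ : Ideal (𝓞 F') → k := fun w =>
        if h : w.IsMaximal ∧ (N : 𝓞 F') ∉ w then χ ⟨w, h⟩ else 0
      have hΨ : (fun i : IdxN F' N => Ψ i.1) = χ := by
        funext i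
        exact dif_pos i.2
      have hgΨ : g ∈ thetaSet F' O n H N Ψ := by
        rw [thetaSet_eq k hO, hΨ]
        exact hg
      have hgj := hgood j.1 j.2.1 j.2.2
      have h1 : ∏ i ∈ W j, χ i = ∏ w ∈ (overSet_finite (F' := F') j.2.1).toFinset, Ψ w := by
        rw [← hWprod j Ψ, ← hΨ]
      rw [h1]
      refine pi_nil (T j) _ (π g) (fun y => ?_)
      exact pull_nil hP (hdat' y) (hHB y) (hOB y) hgj hnN j.2.2 (hsplit' j.1 j.2.2) hgΨ hgP)
    f hfform hfP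
    (by
      intro j
      refine pi_nil (T j) _ (π f) (fun y => ?_)
      obtain ⟨s, hs⟩ := hfeig (twFix (γ y)) y.1 (γ y) (twFix (γ y)).subtype
        ⟨(hRmem y).1, (hdat' y).hγ, (hdat' y).hι, (hdat' y).hB⟩ j.1 j.2.1 j.2.2
      refine ⟨s, ?_⟩
      have h1 := iterate_eq_pow (T j y) (c j.1 ^ Nat.card (F' ≃ₐ[F] F')) s (π f y)
      exact h1.symm.trans hs)
    (fun i => Θ i.1)
    (fun j => (hWprod j Θ).trans (prod_theta hΘ j.2.1 j.2.2))
    (by
      intro χ hχP hχ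
      funext i
      set v : Ideal (𝓞 F) := i.1.comap (algebraMap (𝓞 F) (𝓞 F')) with hvdef
      have hw : i.1 ∈ overSet F' v := ⟨i.2.1, rfl⟩
      have hv : v.IsMaximal := by
        have := i.2.1
        exact Ideal.isMaximal_comap_of_isIntegral_of_isMaximal i.1
      have hNv : (N : 𝓞 F) ∉ v := by
        intro h
        rw [hvdef, Ideal.mem_comap, map_natCast] at h
        exact i.2.2 h
      have h1 := hχ ⟨v, hv, hNv⟩
      have h2 : ∀ i' ∈ W ⟨v, hv, hNv⟩, χ i' = χ i := by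
        intro i' hi'
        have h3 : i'.1 ∈ overSet F' v :=
          (Set.Finite.mem_toFinset _).1 (Finset.mem_subtype.1 hi')
        obtain ⟨σ, hσ⟩ := overSet_transitive hw h3
        have h4 : i' = σ • i := Subtype.ext hσ
        rw [h4]
        exact hχP σ i
      rw [Finset.prod_congr rfl h2, Finset.prod_const] at h1
      have hcard : (W ⟨v, hv, hNv⟩).card = (overSet F' v).ncard := by
        rw [Set.ncard_eq_toFinset_card _ (overSet_finite (F' := F') hv), Finset.card_subtype,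
          Finset.filter_true_of_mem]
        intro w hw
        have hw' : w ∈ overSet F' v := (Set.Finite.mem_toFinset _).1 hw
        exact ⟨hw'.1, over_notMem hNv hw'⟩
      obtain ⟨f₀, hf₀, hΘv⟩ := hΘ v hv hNv
      obtain ⟨s, hs⟩ := hP.exists_card_eq
      rw [hcard] at h1
      have h5 : Θ i.1 ^ (overSet F' v).ncard = c v ^ Nat.card (F' ≃ₐ[F] F') := by
        rw [hΘv _ hw, ← pow_mul, hf₀]
      obtain ⟨t, _, ht⟩ := (Nat.dvd_prime_pow (Fact.out : p.Prime)).1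
        (⟨f₀, by rw [← hs, ← hf₀, mul_comm]⟩ : (overSet F' v).ncard ∣ p ^ s)
      have h6 : χ i ^ (p ^ t) = Θ i.1 ^ (p ^ t) := by
        rw [← ht]
        exact h1.trans h5.symm
      exact iterateFrobenius_inj k p t (by
        rw [iterateFrobenius_def, iterateFrobenius_def]
        exact h6))
  have hhΘ : h ∈ thetaSet F' O n H N Θ := by
    rw [thetaSet_eq k hO]
    exact hh
  refine ⟨h, ⟨Submodule.subset_span hhΘ, fun σ _ x => hhP σ x⟩, ?_⟩
  funext x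
  by_cases hx : x ∈ {y | IsPair F' O n H y} ∧ ∀ σ ∈ (Set.univ : Set (F' ≃ₐ[F] F')),
      ∃ d : Dˣ, σ • x = d • x
  · rw [fixRes_pos hx]
    obtain ⟨d, y, rfl⟩ := hR x hx.1 (fun σ => hx.2 σ (Set.mem_univ σ))
    rw [hf.2 d y.1, hhΘ.1.2 d y.1]
    have h1 := congrFun (congrFun hhπ y)
      ((OB (twFix (γ y)).subtype y.1.1).toAddSubgroup, HB (twFix (γ y)).subtype y.1)
    rw [hπapp, hπapp, pull_pos ((hdat' y).base_pair (hHB y)).1,
      pull_pos ((hdat' y).base_pair (hHB y)).1, ((hdat' y).base_pair (hHB y)).2] at h1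
    exact h1
  · rw [fixRes_neg hx]
    by_contra hne
    exact hx (hf.1 x (fun h0 => hne h0.symm))

end Pool.Agent.Helper93.WT
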